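import Pool.Agent.W456.ExtZero
import Pool.Agent.W456.Geo3

set_option autoImplicit false

open CategoryTheory Limits AlgebraicGeometry
open Pool.Agent.W456

universe u

namespace Pool.Agent.TH215.TM

noncomputable section

variable {X : Scheme.{u}}

/-- the stalk of `M` at `x` vanishes -/
def SZ (M : X.Modules) (x : X) : Prop := IsZero ((stalkF X x).obj M)

/-- restriction to an open immersion followed by extension by zero -/
def Ph {W : Scheme.{u}} (f : W ⟶ X) [IsOpenImmersion f] : X.Modules ⥤ X.Modules :=
  Scheme.Modules.restrictFunctor f ⋙ extZ f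

/-- the counit -/
def ep {W : Scheme.{u}} (f : W ⟶ X) [IsOpenImmersion f] : Ph f ⟶ 𝟭 X.Modules :=
  (extAdj f).counit

instance {W : Scheme.{u}} (f : W ⟶ X) [IsOpenImmersion f] : PreservesFiniteLimits (Ph f) :=
  inferInstanceAs (PreservesFiniteLimits (Scheme.Modules.restrictFunctor f ⋙ extZ f))

instance {W : Scheme.{u}} (f : W ⟶ X) [IsOpenImmersion f] : PreservesFiniteColimits (Ph f) :=
  inferInstanceAs (PreservesFiniteColimits (Scheme.Modules.restrictFunctor f ⋙ extZ f))

instance {W : Scheme.{u}} (f : W ⟶ X) [IsOpenImmersion f] : (Ph f).Additive :=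
  inferInstanceAs ((Scheme.Modules.restrictFunctor f ⋙ extZ f).Additive)

lemma stalk_ep_isIso {W : Scheme.{u}} (f : W ⟶ X) [IsOpenImmersion f] (M : X.Modules) (w : W) :
    IsIso ((stalkF X (f w)).map ((ep f).app M)) := by
  have h1 : IsIso ((Scheme.Modules.restrictFunctor f).map ((extAdj f).counit.app M)) := by
    have h := (extAdj f).right_triangle_components M
    have h2 : (Scheme.Modules.restrictFunctor f).map ((extAdj f).counit.app M) =
        inv ((extAdj f).unit.app ((Scheme.Modules.restrictFunctor f).obj M)) := by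
      rw [IsIso.eq_inv_of_hom_inv_id h]
    rw [h2]
    infer_instance
  have h3 := (NatIso.isIso_map_iff (alpha f w) ((ep f).app M)).1 (by
    change IsIso ((sF f w).map ((Scheme.Modules.restrictFunctor f).map _))
    exact @Functor.map_isIso _ _ _ _ _ _ (sF f w) _ h1)
  exact h3

lemma sz_ph {W : Scheme.{u}} (f : W ⟶ X) [IsOpenImmersion f] (M : X.Modules) (x : X)
    (hx : x ∉ Set.range f) : SZ ((Ph f).obj M) x :=
  isZero_stalk_ext f _ x hx

lemma isZero_of_mono_isIso {x : X} {K M N : X.Modules} (i : K ⟶ M) (q : M ⟶ N) [Mono i]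
    (h : i ≫ q = 0) (hq : IsIso ((stalkF X x).map q)) : SZ K x := by
  have h1 : (stalkF X x).map i = 0 := by
    have h2 : (stalkF X x).map i ≫ (stalkF X x).map q = 0 := by
      rw [← Functor.map_comp, h, Functor.map_zero]
    exact (cancel_mono ((stalkF X x).map q)).1 (by rw [h2, zero_comp])
  have : Mono ((stalkF X x).map i) := inferInstance
  exact IsZero.of_mono_eq_zero _ h1

lemma isZero_of_epi_isIso {x : X} {M N Q : X.Modules} (q : M ⟶ N) (p : N ⟶ Q) [Epi p]
    (h : q ≫ p = 0) (hq : IsIso ((stalkF X x).map q)) : SZ Q x := by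
  have h1 : (stalkF X x).map p = 0 := by
    have h2 : (stalkF X x).map q ≫ (stalkF X x).map p = 0 := by
      rw [← Functor.map_comp, h, Functor.map_zero]
    exact (cancel_epi ((stalkF X x).map q)).1 (by rw [h2, comp_zero])
  have : (stalkF X x).PreservesEpimorphisms :=
    Functor.preservesEpimorphisms_of_adjunction (stalkSkyAdj X x)
  have : Epi ((stalkF X x).map p) := inferInstance
  exact IsZero.of_epi_eq_zero _ h1

lemma sz_of_mono {x : X} {K M : X.Modules} (i : K ⟶ M) [Mono i] (h : SZ M x) : SZ K x :=
  IsZero.of_mono ((stalkF X x).map i) h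

lemma sz_of_epi {x : X} {M Q : X.Modules} (p : M ⟶ Q) [Epi p] (h : SZ M x) : SZ Q x := by
  have : (stalkF X x).PreservesEpimorphisms :=
    Functor.preservesEpimorphisms_of_adjunction (stalkSkyAdj X x)
  exact IsZero.of_epi ((stalkF X x).map p) h

lemma isIso_of_local {M N : X.Modules} (q : M ⟶ N)
    (h : ∀ x, IsIso ((stalkF X x).map q) ∨ (SZ M x ∧ SZ N x)) : IsIso q := by
  have hk : IsZero (kernel q) := by
    apply isZero_of_stalk
    intro x
    rcases h x with h | ⟨h, -⟩
    · exact isZero_of_mono_isIso (kernel.ι q) q (kernel.condition q) h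
    · exact sz_of_mono (kernel.ι q) h
  have hc : IsZero (cokernel q) := by
    apply isZero_of_stalk
    intro x
    rcases h x with h | ⟨-, h⟩
    · exact isZero_of_epi_isIso q (cokernel.π q) (cokernel.condition q) h
    · exact sz_of_epi (cokernel.π q) h
  have : Mono q := Preadditive.mono_of_kernel_zero (hk.eq_of_src _ _)
  have : Epi q := Preadditive.epi_of_cokernel_zero (hc.eq_of_tgt _ _)
  exact isIso_of_mono_of_epi q

instance mono_ep {W : Scheme.{u}} (f : W ⟶ X) [IsOpenImmersion f] (M : X.Modules) :
    Mono ((ep f).app M) := by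
  apply Preadditive.mono_of_kernel_zero
  apply IsZero.eq_of_src
  apply isZero_of_stalk
  intro x
  by_cases hx : x ∈ Set.range f
  · obtain ⟨w, rfl⟩ := hx
    exact isZero_of_mono_isIso (kernel.ι _) _ (kernel.condition _) (stalk_ep_isIso f M w)
  · exact sz_of_mono (kernel.ι ((ep f).app M)) (sz_ph f M x hx)

/-- If the stalks of `H` vanish outside the range then the counit is an isomorphism. -/
lemma isIso_ep {W : Scheme.{u}} (f : W ⟶ X) [IsOpenImmersion f] (H : X.Modules)
    (hH : ∀ x, x ∉ Set.range f → SZ H x) : IsIso ((ep f).app H) := by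
  apply isIso_of_local
  intro x
  by_cases hx : x ∈ Set.range f
  · obtain ⟨w, rfl⟩ := hx
    exact Or.inl (stalk_ep_isIso f H w)
  · exact Or.inr ⟨sz_ph f H x hx, hH x hx⟩

lemma isIso_ph_map {W : Scheme.{u}} (f : W ⟶ X) [IsOpenImmersion f] {H F : X.Modules} (q : H ⟶ F)
    (hq : ∀ x, x ∈ Set.range f → IsIso ((stalkF X x).map q)) : IsIso ((Ph f).map q) := by
  apply isIso_of_local
  intro x
  by_cases hx : x ∈ Set.range f
  · left
    have h1 := hq x hx
    obtain ⟨w, rfl⟩ := hx
    have h2 := stalk_ep_isIso f H w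
    have h3 := stalk_ep_isIso f F w
    have h4 : (stalkF X (f w)).map ((Ph f).map q) ≫ (stalkF X (f w)).map ((ep f).app F) =
        (stalkF X (f w)).map ((ep f).app H) ≫ (stalkF X (f w)).map q := by
      rw [← Functor.map_comp, ← Functor.map_comp, (ep f).naturality]
      rfl
    have h5 : IsIso ((stalkF X (f w)).map ((Ph f).map q) ≫
        (stalkF X (f w)).map ((ep f).app F)) := by
      rw [h4]
      infer_instance
    exact IsIso.of_isIso_comp_right _ ((stalkF X (f w)).map ((ep f).app F))
  · exact Or.inr ⟨sz_ph f H x hx, sz_ph f F x hx⟩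

variable {n : ℕ} (U : Fin n → X.Opens)

/-- iterated extension by zero -/
def PhL : List (Fin n) → (X.Modules ⥤ X.Modules)
  | [] => 𝟭 _
  | i :: l => PhL l ⋙ Ph (U i).ι

lemma phL_append (l : List (Fin n)) (i : Fin n) (H : X.Modules) :
    (PhL U (l ++ [i])).obj H = (PhL U l).obj ((Ph (U i).ι).obj H) := by
  induction l with
  | nil => rfl
  | cons j l ih =>
    change (Ph (U j).ι).obj ((PhL U (l ++ [i])).obj H) = (Ph (U j).ι).obj ((PhL U l).obj _)
    rw [ih]

instance phL_lim (l : List (Fin n)) : PreservesFiniteLimits (PhL U l) := by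
  induction l with
  | nil => exact inferInstanceAs (PreservesFiniteLimits (𝟭 X.Modules))
  | cons j l ih => exact inferInstanceAs (PreservesFiniteLimits (PhL U l ⋙ Ph (U j).ι))

instance phL_colim (l : List (Fin n)) : PreservesFiniteColimits (PhL U l) := by
  induction l with
  | nil => exact inferInstanceAs (PreservesFiniteColimits (𝟭 X.Modules))
  | cons j l ih => exact inferInstanceAs (PreservesFiniteColimits (PhL U l ⋙ Ph (U j).ι))

instance phL_additive (l : List (Fin n)) : (PhL U l).Additive := by
  induction l with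
  | nil => exact inferInstanceAs ((𝟭 X.Modules).Additive)
  | cons j l ih => exact inferInstanceAs ((PhL U l ⋙ Ph (U j).ι).Additive)

/-- the composite of counits -/
def epL : (l : List (Fin n)) → (F : X.Modules) → ((PhL U l).obj F ⟶ F)
  | [], F => 𝟙 F
  | i :: l, F => (ep (U i).ι).app ((PhL U l).obj F) ≫ epL l F

lemma range_ι (V : X.Opens) (x : X) : x ∈ Set.range V.ι ↔ x ∈ V := by
  have : Set.range V.ι = V := by
    rw [← Scheme.Hom.coe_opensRange, Scheme.Opens.opensRange_ι]
  rw [this]
  rfl

lemma epL_stalk (l : List (Fin n)) (F : X.Modules) (x : X) (hx : ∀ i ∈ l, x ∈ U i) :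
    IsIso ((stalkF X x).map (epL U l F)) := by
  induction l with
  | nil =>
    change IsIso ((stalkF X x).map (𝟙 F))
    infer_instance
  | cons i l ih =>
    have h1 := ih (fun j hj => hx j (List.mem_cons_of_mem _ hj))
    have h2 : IsIso ((stalkF X x).map ((ep (U i).ι).app ((PhL U l).obj F))) := by
      have : x ∈ Set.range (U i).ι := (range_ι _ _).2 (hx i List.mem_cons_self)
      obtain ⟨w, rfl⟩ := this
      exact stalk_ep_isIso _ _ w
    change IsIso ((stalkF X x).map ((ep (U i).ι).app ((PhL U l).obj F) ≫ epL U l F))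
    rw [Functor.map_comp]
    infer_instance

lemma phL_sz (l : List (Fin n)) (F : X.Modules) (x : X) (hx : ∃ i ∈ l, x ∉ U i) :
    SZ ((PhL U l).obj F) x := by
  induction l with
  | nil => simp at hx
  | cons i l ih =>
    by_cases h : x ∈ U i
    · have h1 : SZ ((PhL U l).obj F) x := by
        apply ih
        obtain ⟨j, hj, hj'⟩ := hx
        rcases List.mem_cons.1 hj with rfl | hj
        · exact absurd h hj'
        · exact ⟨j, hj, hj'⟩
      have hm : Mono ((ep (U i).ι).app ((PhL U l).obj F)) := mono_ep (U i).ι ((PhL U l).obj F)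
      exact @sz_of_mono X x _ _ ((ep (U i).ι).app ((PhL U l).obj F)) hm h1
    · exact sz_ph _ _ x (fun h' => h ((range_ι _ _).1 h'))

section main

variable (C : ObjectProperty X.Modules) [C.IsClosedUnderIsomorphisms]

/-- all iterated extensions by zero of `H` are in `C` -/
def AA (H : X.Modules) : Prop := ∀ l : List (Fin n), l ≠ [] → C ((PhL U l).obj H)

variable (hz : ∀ M : X.Modules, IsZero M → C M)
    (h3 : ∀ S : ShortComplex X.Modules, S.ShortExact → C S.X₁ → C S.X₂ → C S.X₃)
    (h2 : ∀ S : ShortComplex X.Modules, S.ShortExact → C S.X₁ → C S.X₃ → C S.X₂)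

/-- the short complex of the counit and its cokernel -/
def scE (V : X.Opens) (H : X.Modules) : ShortComplex X.Modules :=
  ShortComplex.mk ((ep V.ι).app H) (cokernel.π ((ep V.ι).app H)) (cokernel.condition _)

lemma scE_shortExact (V : X.Opens) (H : X.Modules) : (scE V H).ShortExact where
  exact := ShortComplex.exact_cokernel _
  mono_f := mono_ep V.ι H
  epi_g := inferInstanceAs (Epi (cokernel.π ((ep V.ι).app H)))

omit [C.IsClosedUnderIsomorphisms] in
include h3 in
lemma AA.coker {H : X.Modules} (hH : AA U C H) (i : Fin n) :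
    AA U C (cokernel ((ep (U i).ι).app H)) := by
  intro l hl
  have hS := (scE_shortExact (U i) H).map_of_exact (PhL U l)
  refine h3 _ hS ?_ (hH l hl)
  change C ((PhL U l).obj ((Ph (U i).ι).obj H))
  rw [← phL_append]
  exact hH _ (by simp)

omit [C.IsClosedUnderIsomorphisms] in
include hz h3 h2 in
lemma mem_of_AA (t : List (Fin n)) : ∀ H : X.Modules, AA U C H →
    (∀ x, (∀ i ∈ t, x ∉ U i) → SZ H x) → C H := by
  induction t with
  | nil =>
    intro H _ hs
    exact hz H (isZero_of_stalk H fun x => hs x (by simp))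
  | cons i t ih =>
    intro H hH hs
    have h1 : C (cokernel ((ep (U i).ι).app H)) := by
      apply ih _ (hH.coker U C h3 i)
      intro x hx
      by_cases hi : x ∈ U i
      · obtain ⟨w, rfl⟩ := (range_ι (U i) x).2 hi
        exact isZero_of_epi_isIso _ (cokernel.π _) (cokernel.condition _)
          (stalk_ep_isIso (U i).ι H w)
      · apply sz_of_epi (cokernel.π ((ep (U i).ι).app H))
        apply hs
        intro j hj
        rcases List.mem_cons.1 hj with rfl | hj
        · exact hi
        · exact hx j hj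
    exact h2 _ (scE_shortExact (U i) H) (hH [i] (by simp)) h1

include hz h3 h2 in
theorem cech (hcov : ⨆ i, U i = ⊤) (F : X.Modules)
    (hF : ∀ s : Finset (Fin n), s.Nonempty → ∃ (W : Scheme.{u}) (f : W ⟶ X)
      (_ : IsOpenImmersion f), f.opensRange = s.inf U ∧
        C ((extZ f).obj ((Scheme.Modules.restrictFunctor f).obj F))) :
    C F := by
  classical
  apply mem_of_AA U C hz h3 h2 (List.finRange n) F
  · intro l hl
    obtain ⟨W, f, hf, hr, hC⟩ := hF l.toFinset (by
      obtain ⟨a, ha⟩ := List.exists_mem_of_ne_nil l hl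
      exact ⟨a, by simpa using ha⟩)
    have hmem : ∀ x, x ∈ Set.range f ↔ ∀ i ∈ l, x ∈ U i := by
      intro x
      have h1 : x ∈ Set.range f ↔ x ∈ f.opensRange := Iff.rfl
      rw [h1, hr]
      have h2 : ∀ s : Finset (Fin n), x ∈ s.inf U ↔ ∀ i ∈ s, x ∈ U i := by
        intro s
        induction s using Finset.induction_on with
        | empty => simp
        | insert a s ha ih =>
          rw [Finset.inf_insert]
          simp only [Finset.mem_insert, forall_eq_or_imp, ← ih]
          rfl
      rw [h2]
      simp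
    have i1 : IsIso ((ep f).app ((PhL U l).obj F)) := by
      apply isIso_ep
      intro x hx
      apply phL_sz
      rw [hmem] at hx
      push Not at hx
      exact hx
    have i2 : IsIso ((Ph f).map (epL U l F)) :=
      isIso_ph_map f _ (fun x hx => epL_stalk U l F x ((hmem x).1 hx))
    exact C.prop_of_iso ((asIso ((Ph f).map (epL U l F))).symm ≪≫
      asIso ((ep f).app ((PhL U l).obj F))) hC
  · intro x hx
    exfalso
    have : x ∈ (⨆ i, U i : X.Opens) := by rw [hcov]; trivial
    rw [TopologicalSpace.Opens.mem_iSup] at this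
    obtain ⟨i, hi⟩ := this
    exact hx i (List.mem_finRange i) hi

end main

end

end Pool.Agent.TH215.TM
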