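import Mathlib

set_option autoImplicit false

open CategoryTheory Limits Pretriangulated

universe u v w

namespace Pool.Agent.TH215.TM

section triang

variable {T : Type u} [Category.{v} T] [Preadditive T] [HasZeroObject T] [HasShift T ℤ]
  [∀ n : ℤ, (shiftFunctor T n).Additive] [Pretriangulated T]

/-- `Hom(E, G[i]) = 0` for all large `i` -/
def HV (E G : T) : Prop := ∃ n : ℤ, ∀ i : ℤ, n ≤ i → Subsingleton (E ⟶ G⟦i⟧)

omit [Preadditive T] [HasZeroObject T] [∀ n : ℤ, (shiftFunctor T n).Additive] [Pretriangulated T] in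
lemma HV.of_iso_left {E E' G : T} (h : HV E G) (e : E ≅ E') : HV E' G := by
  obtain ⟨n, hn⟩ := h
  refine ⟨n, fun i hi => ⟨fun a b => ?_⟩⟩
  have := hn i hi
  have h1 : e.hom ≫ a = e.hom ≫ b := Subsingleton.elim _ _
  exact (cancel_epi e.hom).1 h1

omit [Preadditive T] [HasZeroObject T] [∀ n : ℤ, (shiftFunctor T n).Additive] [Pretriangulated T] in
lemma HV.of_iso_right {E G G' : T} (h : HV E G) (e : G ≅ G') : HV E G' := by
  obtain ⟨n, hn⟩ := h
  refine ⟨n, fun i hi => ⟨fun a b => ?_⟩⟩
  have := hn i hi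
  have h1 : a ≫ ((shiftFunctor T i).mapIso e).inv = b ≫ ((shiftFunctor T i).mapIso e).inv :=
    Subsingleton.elim _ _
  exact (cancel_mono ((shiftFunctor T i).mapIso e).inv).1 h1

omit [Preadditive T] [HasZeroObject T] [∀ n : ℤ, (shiftFunctor T n).Additive] [Pretriangulated T] in
lemma HV.shift_right {E G : T} (h : HV E G) (m : ℤ) : HV E (G⟦m⟧) := by
  obtain ⟨n, hn⟩ := h
  refine ⟨n - m, fun i hi => ⟨fun a b => ?_⟩⟩
  have := hn (m + i) (by lia)
  let e := (shiftFunctorAdd T m i).app G
  have h1 : a ≫ e.inv = b ≫ e.inv := Subsingleton.elim _ _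
  exact (cancel_mono e.inv).1 h1

omit [Preadditive T] [HasZeroObject T] [∀ n : ℤ, (shiftFunctor T n).Additive] [Pretriangulated T] in
lemma HV.shift_left {E G : T} (h : HV E G) (m : ℤ) : HV (E⟦m⟧) G := by
  obtain ⟨n, hn⟩ := h
  refine ⟨n + m, fun i hi => ⟨fun a b => ?_⟩⟩
  have := hn (i - m) (by lia)
  let e := (shiftFunctorAdd' T (i - m) m i (by lia)).app G
  obtain ⟨a', ha'⟩ := (shiftFunctor T m).map_surjective (a ≫ e.hom)
  obtain ⟨b', hb'⟩ := (shiftFunctor T m).map_surjective (b ≫ e.hom)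
  have h1 : a ≫ e.hom = b ≫ e.hom := by
    rw [← ha', ← hb']
    have : a' = b' := Subsingleton.elim _ _
    rw [this]
  exact (cancel_mono e.hom).1 h1

omit [HasZeroObject T] [Pretriangulated T] [∀ n : ℤ, (shiftFunctor T n).Additive] in
lemma subsingleton_of_zero {X Y : T} (h : ∀ f : X ⟶ Y, f = 0) : Subsingleton (X ⟶ Y) :=
  ⟨fun a b => by rw [h a, h b]⟩

lemma HV.left₂ {G : T} (t : Triangle T) (ht : t ∈ distTriang T) (h₁ : HV t.obj₁ G)
    (h₃ : HV t.obj₃ G) : HV t.obj₂ G := by
  obtain ⟨n, hn⟩ := h₁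
  obtain ⟨m, hm⟩ := h₃
  refine ⟨max n m, fun i hi => subsingleton_of_zero fun f => ?_⟩
  have := hn i (by lia)
  have := hm i (by lia)
  obtain ⟨g, rfl⟩ := t.yoneda_exact₂ ht f (Subsingleton.elim _ _)
  rw [show g = 0 from Subsingleton.elim _ _, comp_zero]

lemma HV.left₃ {G : T} (t : Triangle T) (ht : t ∈ distTriang T) (h₁ : HV t.obj₁ G)
    (h₂ : HV t.obj₂ G) : HV t.obj₃ G :=
  HV.left₂ _ (rot_of_distTriang _ ht) h₂ (h₁.shift_left 1)

lemma HV.right₂ {E : T} (t : Triangle T) (ht : t ∈ distTriang T) (h₁ : HV E t.obj₁)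
    (h₃ : HV E t.obj₃) : HV E t.obj₂ := by
  obtain ⟨n, hn⟩ := h₁
  obtain ⟨m, hm⟩ := h₃
  refine ⟨max n m, fun i hi => subsingleton_of_zero fun f => ?_⟩
  have := hn i (by lia)
  have := hm i (by lia)
  obtain ⟨g, hg⟩ := Triangle.coyoneda_exact₂ _ (Triangle.shift_distinguished t ht i) f
    (Subsingleton.elim (α := E ⟶ t.obj₃⟦i⟧) _ _)
  have h0 : g = 0 := Subsingleton.elim (α := E ⟶ t.obj₁⟦i⟧) _ _
  rw [hg, h0]
  exact zero_comp

omit [HasZeroObject T] [Pretriangulated T] [∀ n : ℤ, (shiftFunctor T n).Additive] in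
lemma HV.of_isZero_left {E G : T} (h : IsZero E) : HV E G :=
  ⟨0, fun _ _ => ⟨fun a b => h.eq_of_src a b⟩⟩

omit [HasZeroObject T] [Pretriangulated T] in
lemma HV.of_isZero_right {E G : T} (h : IsZero G) : HV E G :=
  ⟨0, fun i _ => ⟨fun a b => ((shiftFunctor T i).map_isZero h).eq_of_tgt a b⟩⟩

end triang

section derived

open DerivedCategory

variable {A : Type u} [Category.{v} A] [Abelian A] [HasDerivedCategory.{w} A]

/-- Objects with bounded cohomology are built from their cohomology objects. -/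
theorem bounded_induction (Q : ObjectProperty (DerivedCategory A)) [Q.IsClosedUnderIsomorphisms]
    (hz : ∀ X, IsZero X → Q X)
    (h2 : ∀ t : Triangle (DerivedCategory A), t ∈ distTriang (DerivedCategory A) →
      Q t.obj₁ → Q t.obj₃ → Q t.obj₂) (k : ℕ) : ∀ (a : ℤ) (E : DerivedCategory A),
      (∀ i : ℤ, (i < a ∨ a + k ≤ i) → IsZero ((homologyFunctor A i).obj E)) →
      (∀ i : ℤ, Q ((singleFunctor A i).obj ((homologyFunctor A i).obj E))) → Q E := by
  induction k with
  | zero =>
    intro a E hE _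
    apply hz
    have hLE : E.IsLE (a - 1) := by
      rw [isLE_iff]
      intro i hi
      exact hE i (Or.inr (by push_cast; lia))
    have hGE : E.IsGE a := by
      rw [isGE_iff]
      intro i hi
      exact hE i (Or.inl hi)
    exact TStructure.t.isZero E (a - 1) a (by lia)
  | succ k ih =>
    intro a E hE hQ
    set b : ℤ := a + k with hb
    have hT := TStructure.t.triangleLTGE_distinguished b E
    set T := (TStructure.t.triangleLTGE b).obj E with hTdef
    have h1 : T.obj₁.IsLE (b - 1) := inferInstanceAs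
      (TStructure.t.IsLE ((TStructure.t.triangleLTGE b).obj E).obj₁ (b - 1))
    have h3 : T.obj₃.IsGE b := inferInstanceAs
      (TStructure.t.IsGE ((TStructure.t.triangleLTGE b).obj E).obj₃ b)
    -- isomorphisms on homology
    have iso1 : ∀ i : ℤ, i < b → Nonempty ((homologyFunctor A i).obj T.obj₁ ≅
        (homologyFunctor A i).obj E) := by
      intro i hi
      have z3 : IsZero ((homologyFunctor A i).obj T.obj₃) := T.obj₃.isZero_of_isGE b i hi
      have z3' : IsZero ((homologyFunctor A (i - 1)).obj T.obj₃) :=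
        T.obj₃.isZero_of_isGE b (i - 1) (by lia)
      have m : Mono ((homologyFunctor A i).map T.mor₁) :=
        (HomologySequence.mono_homologyMap_mor₁_iff T hT (i - 1) i (by lia)).2
          (z3'.eq_of_src _ _)
      have e : Epi ((homologyFunctor A i).map T.mor₁) :=
        (HomologySequence.epi_homologyMap_mor₁_iff T hT i).2 (z3.eq_of_tgt _ _)
      have h := isIso_of_mono_of_epi ((homologyFunctor A i).map T.mor₁)
      exact ⟨@asIso _ _ _ _ _ h⟩
    have iso3 : ∀ i : ℤ, b ≤ i → Nonempty ((homologyFunctor A i).obj E ≅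
        (homologyFunctor A i).obj T.obj₃) := by
      intro i hi
      have z1 : IsZero ((homologyFunctor A i).obj T.obj₁) := T.obj₁.isZero_of_isLE (b - 1) i (by lia)
      have z1' : IsZero ((homologyFunctor A (i + 1)).obj T.obj₁) :=
        T.obj₁.isZero_of_isLE (b - 1) (i + 1) (by lia)
      have m : Mono ((homologyFunctor A i).map T.mor₂) :=
        (HomologySequence.mono_homologyMap_mor₂_iff T hT i).2 (z1.eq_of_src _ _)
      have e : Epi ((homologyFunctor A i).map T.mor₂) :=
        (HomologySequence.epi_homologyMap_mor₂_iff T hT i (i + 1) (by lia)).2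
          (z1'.eq_of_tgt _ _)
      have h := isIso_of_mono_of_epi ((homologyFunctor A i).map T.mor₂)
      exact ⟨@asIso _ _ _ _ _ h⟩
    have q1 : Q T.obj₁ := by
      refine ih a T.obj₁ ?_ ?_
      · rintro i (hi | hi)
        · obtain ⟨e⟩ := iso1 i (by lia)
          exact (hE i (Or.inl hi)).of_iso e
        · exact T.obj₁.isZero_of_isLE (b - 1) i (by lia)
      · intro i
        by_cases hi : i < b
        · obtain ⟨e⟩ := iso1 i hi
          exact Q.prop_of_iso ((singleFunctor A i).mapIso e.symm) (hQ i)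
        · refine hz _ ((singleFunctor A i).map_isZero ?_)
          exact T.obj₁.isZero_of_isLE (b - 1) i (by lia)
    have q3 : Q T.obj₃ := by
      have hLE : T.obj₃.IsLE b := by
        rw [isLE_iff]
        intro i hi
        obtain ⟨e⟩ := iso3 i (by lia)
        exact (hE i (Or.inr (by push_cast; lia))).of_iso e.symm
      obtain ⟨Y, ⟨e⟩⟩ := exists_iso_singleFunctor_obj_of_isGE_of_isLE T.obj₃ b
      obtain ⟨e'⟩ := iso3 b le_rfl
      have e2 : (homologyFunctor A b).obj E ≅ Y :=
        e' ≪≫ (homologyFunctor A b).mapIso e ≪≫ (singleFunctorCompHomologyFunctorIso A b).app Y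
      exact Q.prop_of_iso ((singleFunctor A b).mapIso e2 ≪≫ e.symm) (hQ b)
    exact h2 T hT q1 q3

/-- comparison of single functors -/
noncomputable def singleShift (F : A) (i : ℤ) :
    (singleFunctor A i).obj F ≅ ((singleFunctor A 0).obj F)⟦-i⟧ :=
  (((DerivedCategory.singleFunctors A).shiftIso (-i) i 0 (by lia)).app F).symm

lemma amplitude {E : DerivedCategory A}
    (bE : ∃ a b : ℤ, ∀ i : ℤ, (i < a ∨ b < i) →
      IsZero ((DerivedCategory.homologyFunctor A i).obj E)) :
    ∃ (k : ℕ) (a : ℤ), ∀ i : ℤ, (i < a ∨ a + k ≤ i) →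
      IsZero ((DerivedCategory.homologyFunctor A i).obj E) := by
  obtain ⟨a, b, h⟩ := bE
  refine ⟨(b + 1 - a).toNat, a, fun i hi => h i ?_⟩
  rcases hi with hi | hi
  · exact Or.inl hi
  · by_cases h' : i < a
    · exact Or.inl h'
    · right
      have := Int.self_le_toNat (b + 1 - a)
      lia

theorem HV.devissage_left {E G : DerivedCategory A}
    (bE : ∃ a b : ℤ, ∀ i : ℤ, (i < a ∨ b < i) →
      IsZero ((DerivedCategory.homologyFunctor A i).obj E))
    (h : ∀ i, HV ((singleFunctor A 0).obj ((homologyFunctor A i).obj E)) G) : HV E G := by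
  obtain ⟨k, a, ha⟩ := amplitude bE
  let Q : ObjectProperty (DerivedCategory A) := fun X => HV X G
  have hQ : Q.IsClosedUnderIsomorphisms := ⟨fun e h => HV.of_iso_left h e⟩
  exact bounded_induction Q (fun X hX => HV.of_isZero_left hX)
    (fun t ht h1 h3 => HV.left₂ t ht h1 h3) k a E ha
    (fun i => ((h i).shift_left (-i)).of_iso_left (singleShift _ i).symm)

theorem HV.devissage_right {E G : DerivedCategory A}
    (bG : ∃ a b : ℤ, ∀ i : ℤ, (i < a ∨ b < i) →
      IsZero ((DerivedCategory.homologyFunctor A i).obj G))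
    (h : ∀ i, HV E ((singleFunctor A 0).obj ((homologyFunctor A i).obj G))) : HV E G := by
  obtain ⟨k, a, ha⟩ := amplitude bG
  let Q : ObjectProperty (DerivedCategory A) := fun X => HV E X
  have hQ : Q.IsClosedUnderIsomorphisms := ⟨fun e h => HV.of_iso_right h e⟩
  exact bounded_induction Q (fun X hX => HV.of_isZero_right hX)
    (fun t ht h1 h3 => HV.right₂ t ht h1 h3) k a G ha
    (fun i => ((h i).shift_right (-i)).of_iso_right (singleShift _ i).symm)

end derived

end Pool.Agent.TH215.TM
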