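import Pool.Agent.TH215.TM.AffExt
import Pool.Agent.TH215.TM.Cech
import Pool.Agent.TH215.TM.HV
import Pool.Agent.TH350.J304
import Pool.Agent.W456.Geo1
import Pool.Agent.W456.DAdj

set_option autoImplicit false

open CategoryTheory Limits AlgebraicGeometry Abelian Pretriangulated
open Pool.Agent.W506 Pool.Agent.W456

universe u v w

namespace Pool.Agent.TH215.TM

open Pool.Agent.TH350.J304

attribute [local instance] HasDerivedCategory.standard

section adj

variable {C : Type u} [Category.{v} C] [Abelian C] {D : Type u} [Category.{v} D] [Abelian D]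
  {F : C ⥤ D} {G : D ⥤ C} (adj : F ⊣ G) [F.Additive] [G.Additive]
  [PreservesFiniteLimits F] [PreservesFiniteColimits F]
  [PreservesFiniteLimits G] [PreservesFiniteColimits G]

include adj in
/-- Boundedness of Hom in the derived category passes through an exact adjunction. -/
lemma HV.of_adj (A : C) (B : D)
    (h : HV ((DerivedCategory.singleFunctor C 0).obj A)
      ((DerivedCategory.singleFunctor C 0).obj (G.obj B))) :
    HV ((DerivedCategory.singleFunctor D 0).obj (F.obj A))
      ((DerivedCategory.singleFunctor D 0).obj B) := by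
  obtain ⟨n, hn⟩ := h
  refine ⟨n, fun i hi => ?_⟩
  have h1 := hn i hi
  have e1 : (DerivedCategory.singleFunctor D 0).obj (F.obj A) ≅
      F.mapDerivedCategory.obj ((DerivedCategory.singleFunctor C 0).obj A) :=
    ((F.mapDerivedCategorySingleFunctor 0).app A).symm
  have e2 : (DerivedCategory.singleFunctor C 0).obj (G.obj B) ≅
      G.mapDerivedCategory.obj ((DerivedCategory.singleFunctor D 0).obj B) :=
    ((G.mapDerivedCategorySingleFunctor 0).app B).symm
  have e3 : (G.mapDerivedCategory.obj ((DerivedCategory.singleFunctor D 0).obj B))⟦i⟧ ≅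
      G.mapDerivedCategory.obj (((DerivedCategory.singleFunctor D 0).obj B)⟦i⟧) :=
    ((G.mapDerivedCategory.commShiftIso i).app _).symm
  constructor
  intro a b
  have key : ∀ a : (DerivedCategory.singleFunctor D 0).obj (F.obj A) ⟶
      ((DerivedCategory.singleFunctor D 0).obj B)⟦i⟧,
      a = e1.hom ≫ ((dAdj adj).homEquiv _ _).symm
        (((dAdj adj).homEquiv _ _) (e1.inv ≫ a)) := by
    intro a
    simp
  rw [key a, key b]
  congr 2
  have h2 : ∀ c d : (DerivedCategory.singleFunctor C 0).obj A ⟶
      G.mapDerivedCategory.obj (((DerivedCategory.singleFunctor D 0).obj B)⟦i⟧), c = d := by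
    intro c d
    have h3 : c ≫ e3.inv ≫ ((shiftFunctor _ i).mapIso e2).inv =
      d ≫ e3.inv ≫ ((shiftFunctor _ i).mapIso e2).inv := Subsingleton.elim _ _
    have h4 := (cancel_mono (e3.inv ≫ ((shiftFunctor _ i).mapIso e2).inv)).1 h3
    exact h4
  exact h2 _ _

end adj

/-- The class of modules with bounded Ext groups to `G`. -/
def CG {X : Scheme.{u}} (G : X.Modules) : ObjectProperty X.Modules := fun H =>
  HV ((DerivedCategory.singleFunctor X.Modules 0).obj H)
    ((DerivedCategory.singleFunctor X.Modules 0).obj G)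

instance {X : Scheme.{u}} (G : X.Modules) : (CG G).IsClosedUnderIsomorphisms :=
  ⟨fun e h => HV.of_iso_left h ((DerivedCategory.singleFunctor X.Modules 0).mapIso e)⟩

/-- Sections of a restriction along the inclusion of an affine open. -/
lemma finite_restrict {X : Scheme.{u}} (F : X.Modules) (W : X.Opens) (hW : IsAffineOpen W)
    (hF : Module.Finite Γ(X, W) Γ(F, W)) :
    Module.Finite Γ(X, W) (moduleSpecΓFunctor.obj (F.restrict hW.fromSpec)) := by
  have hT : hW.fromSpec ''ᵁ ⊤ = W := by
    rw [Scheme.Hom.image_top_eq_opensRange, hW.opensRange_fromSpec]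
  obtain ⟨s, hs⟩ := hF
  let φ : Γ(F, W) →ₗ[Γ(X, W)] (moduleSpecΓFunctor.obj (F.restrict hW.fromSpec)) :=
    { toFun := fun m => (rs F hT.le m : Γ(F, hW.fromSpec ''ᵁ ⊤))
      map_add' := fun a b => map_add _ a b
      map_smul' := fun r m => by
        have h1 := restrict_smul F hW ⊤ hT.le r (rs F hT.le m : Γ(F, hW.fromSpec ''ᵁ ⊤))
        have h2 := rs_smul (M := F) hT.le r m
        exact h2.trans h1.symm }
  have hφ : Function.Surjective φ := by
    have key : ∀ y : Γ(F, hW.fromSpec ''ᵁ ⊤), rs F hT.le (rs F hT.ge y) = y := by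
      intro y
      rw [rs_rs, rs_refl]
    intro y
    exact ⟨rs F hT.ge (y : Γ(F, hW.fromSpec ''ᵁ ⊤)), key y⟩
  have : Module.Finite Γ(X, W) Γ(F, W) := ⟨s, hs⟩
  exact Module.Finite.of_surjective φ hφ

/-- The extension by zero of the restriction of a coherent module to an affine open subset
with noetherian ring of functions of finite global dimension. -/
theorem cg_ext {X : Scheme.{u}} (F G : X.Modules) (hF : IsCoh F) (hG : G.IsQuasicoherent)
    (W : X.Opens) (hW : IsAffineOpen W) (hN : IsNoetherianRing Γ(X, W))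
    (hgl : ∃ d, ∀ M : ModuleCat.{u} Γ(X, W), HasProjectiveDimensionLT M d) :
    CG G ((extZ hW.fromSpec).obj ((Scheme.Modules.restrictFunctor hW.fromSpec).obj F)) := by
  apply HV.of_adj (extAdj hW.fromSpec)
  have hqF : (F.restrict hW.fromSpec).IsQuasicoherent :=
    have := hF.1
    Scheme.Modules.isQuasicoherent_restrictFunctor hW.fromSpec F
  have hqG : (G.restrict hW.fromSpec).IsQuasicoherent :=
    Scheme.Modules.isQuasicoherent_restrictFunctor hW.fromSpec G
  have i1 : IsIso (Scheme.Modules.fromTildeΓ (F.restrict hW.fromSpec)) := inferInstance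
  have i2 : IsIso (Scheme.Modules.fromTildeΓ (G.restrict hW.fromSpec)) := inferInstance
  have e1 := asIso (Scheme.Modules.fromTildeΓ (F.restrict hW.fromSpec))
  have e2 := asIso (Scheme.Modules.fromTildeΓ (G.restrict hW.fromSpec))
  obtain ⟨d, hd⟩ := hgl
  have hfin := finite_restrict F W hW (hF.2 W hW)
  refine HV.of_iso_left (HV.of_iso_right ?_
    ((DerivedCategory.singleFunctor _ 0).mapIso e2)) ((DerivedCategory.singleFunctor _ 0).mapIso e1)
  refine ⟨d, fun i hi => ?_⟩
  exact affine_ext Γ(X, W) _ _ d (hd _) i hi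

/-- Finite intersections of the members of the cover. -/
theorem inter_cover (X : Scheme.{0}) {n : ℕ} (U : Fin n → X.Opens)
    (hU : ∀ i, IsAffineOpen (U i)) (hN : ∀ i, IsNoetherianRing Γ(X, U i))
    (hgl : ∀ i, ∃ d, ∀ M : ModuleCat.{0} Γ(X, U i), HasProjectiveDimensionLT M d)
    (hinter : ∀ i j, ∃ f : Γ(X, U i), U i ⊓ U j = X.basicOpen f)
    (s : Finset (Fin n)) (hs : s.Nonempty) :
    IsAffineOpen (s.inf U) ∧ IsNoetherianRing Γ(X, s.inf U) ∧
      ∃ d, ∀ M : ModuleCat.{0} Γ(X, s.inf U), HasProjectiveDimensionLT M d := by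
  obtain ⟨i, hi⟩ := hs
  have key : ∃ f : Γ(X, U i), s.inf U = X.basicOpen f := by
    choose f hf using hinter i
    refine ⟨∏ j ∈ s, f j, ?_⟩
    have h1 : ∀ t : Finset (Fin n), X.basicOpen (∏ j ∈ t, f j) = U i ⊓ t.inf U := by
      intro t
      induction t using Finset.induction_on with
      | empty => simp
      | insert a t ha ih =>
        rw [Finset.prod_insert ha, Scheme.basicOpen_mul, ih, ← hf a, Finset.inf_insert]
        ext x
        simp
        tauto
    rw [h1]
    exact (inf_eq_right.2 (Finset.inf_le hi)).symm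
  obtain ⟨f, hf⟩ := key
  rw [hf]
  have hloc := (hU i).isLocalization_basicOpen f
  have := hN i
  refine ⟨(hU i).basicOpen f, IsLocalization.isNoetherianRing (Submonoid.powers f) _ inferInstance, ?_⟩
  obtain ⟨d, hd⟩ := hgl i
  exact ⟨d, fun M => gl_localization f Γ(X, X.basicOpen f) d hd M⟩

/-- On a scheme with a finite affine cover whose members have noetherian coordinate rings of
finite global dimension (and basic open pairwise intersections), Hom groups between objects of
`D^b(coh X)` vanish in large degrees. -/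
theorem ext_bounded (X : Scheme.{0}) {n : ℕ} (U : Fin n → X.Opens)
    (hU : ∀ i, IsAffineOpen (U i)) (hcov : ⨆ i, U i = ⊤)
    (hN : ∀ i, IsNoetherianRing Γ(X, U i))
    (hgl : ∀ i, ∃ d, ∀ M : ModuleCat.{0} Γ(X, U i), HasProjectiveDimensionLT M d)
    (hinter : ∀ i j, ∃ f : Γ(X, U i), U i ⊓ U j = X.basicOpen f)
    (E G : DerivedCategory X.Modules) (hE : isDbCoh X E) (hG : isDbCoh X G) : HV E G := by
  apply HV.devissage_left hE.2
  intro i
  apply HV.devissage_right hG.2
  intro j
  set F := (DerivedCategory.homologyFunctor X.Modules i).obj E with hFdef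
  set H := (DerivedCategory.homologyFunctor X.Modules j).obj G with hHdef
  refine cech U (CG H) (fun M hM => HV.of_isZero_left
      ((DerivedCategory.singleFunctor X.Modules 0).map_isZero hM)) ?_ ?_ hcov F ?_
  · intro S hS h1 h2
    exact HV.left₃ _ hS.singleTriangle_distinguished h1 h2
  · intro S hS h1 h3
    exact HV.left₂ _ hS.singleTriangle_distinguished h1 h3
  · intro s hs
    obtain ⟨h1, h2, h3⟩ := inter_cover X U hU hN hgl hinter s hs
    exact ⟨_, h1.fromSpec, inferInstance, h1.opensRange_fromSpec,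
      cg_ext F H (hE.1 i) (hG.1 j).1 _ h1 h2 h3⟩

end Pool.Agent.TH215.TM
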