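import Pool.Agent.TH215.TM.Defs
import Pool.Agent.TH215.TM.HV
import Pool.Agent.W506.L4
import Pool.Agent.W456.Inv

set_option autoImplicit false

open CategoryTheory Limits AlgebraicGeometry Abelian Pretriangulated

universe u v w

namespace Pool.Agent.TH215.TM

attribute [local instance] HasDerivedCategory.standard

section general

variable {A : Type u} [Category.{v} A] [Abelian A] [HasDerivedCategory.{w} A]

/-- homology of a shift -/
noncomputable def homShift (E : DerivedCategory A) (n i : ℤ) :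
    (DerivedCategory.homologyFunctor A i).obj (E⟦n⟧) ≅
      (DerivedCategory.homologyFunctor A (n + i)).obj E :=
  ((DerivedCategory.homologyFunctor A 0).shiftIso n i (n + i) rfl).app E

lemma bounded_shift {E : DerivedCategory A} (n : ℤ)
    (bE : ∃ a b : ℤ, ∀ i : ℤ, (i < a ∨ b < i) →
      IsZero ((DerivedCategory.homologyFunctor A i).obj E)) :
    ∃ a b : ℤ, ∀ i : ℤ, (i < a ∨ b < i) →
      IsZero ((DerivedCategory.homologyFunctor A i).obj (E⟦n⟧)) := by
  obtain ⟨a, b, h⟩ := bE
  refine ⟨a - n, b - n, fun i hi => ?_⟩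
  exact (h (n + i) (by lia)).of_iso (homShift E n i)

end general

lemma isCoh_of_iso {X : Scheme.{u}} {M N : X.Modules} (e : M ≅ N)
    (h : Pool.Agent.W506.IsCoh M) : Pool.Agent.W506.IsCoh N := by
  refine ⟨?_, fun U hU => ?_⟩
  · exact ObjectProperty.prop_of_iso (SheafOfModules.isQuasicoherent X.ringCatSheaf) (X := M)
      (Y := N) e h.1
  · have := h.2 U hU
    exact Module.Finite.equiv (Pool.Agent.W506.apEquiv e U)

lemma isDbCoh_shift {X : Scheme.{u}} (E : DerivedCategory X.Modules) (hE : isDbCoh X E) (n : ℤ) :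
    isDbCoh X (E⟦n⟧) :=
  ⟨fun i => isCoh_of_iso (homShift E n i).symm (hE.1 _), bounded_shift n hE.2⟩

lemma isDbCoh_of_iso {X : Scheme.{u}} {E F : DerivedCategory X.Modules} (e : E ≅ F)
    (hE : isDbCoh X E) : isDbCoh X F := by
  refine ⟨fun i => isCoh_of_iso ((DerivedCategory.homologyFunctor _ i).mapIso e) (hE.1 i), ?_⟩
  obtain ⟨a, b, h⟩ := hE.2
  exact ⟨a, b, fun i hi => (h i hi).of_iso ((DerivedCategory.homologyFunctor _ i).mapIso e.symm)⟩

instance (X : Scheme.{u}) : (isDbCoh X).IsStableUnderShift ℤ where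
  isStableUnderShiftBy n := ⟨fun E hE => isDbCoh_shift E hE n⟩

instance (X : Scheme.{u}) : (isDbCoh X).IsClosedUnderIsomorphisms where
  of_iso e h := isDbCoh_of_iso e h

lemma isDbMod_shift {R : Type u} [Ring R] (E : DerivedCategory (ModuleCat.{u} R))
    (hE : isDbMod R E) (n : ℤ) : isDbMod R (E⟦n⟧) := by
  refine ⟨fun i => ?_, bounded_shift n hE.2⟩
  have := hE.1 (n + i)
  exact Module.Finite.equiv (homShift E n i).symm.toLinearEquiv

lemma isDbMod_of_iso {R : Type u} [Ring R] {E F : DerivedCategory (ModuleCat.{u} R)}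
    (e : E ≅ F) (hE : isDbMod R E) : isDbMod R F := by
  refine ⟨fun i => ?_, ?_⟩
  · have := hE.1 i
    exact Module.Finite.equiv ((DerivedCategory.homologyFunctor _ i).mapIso e).toLinearEquiv
  obtain ⟨a, b, h⟩ := hE.2
  exact ⟨a, b, fun i hi => (h i hi).of_iso ((DerivedCategory.homologyFunctor _ i).mapIso e.symm)⟩

instance (R : Type u) [Ring R] : (isDbMod R).IsStableUnderShift ℤ where
  isStableUnderShiftBy n := ⟨fun E hE => isDbMod_shift E hE n⟩

instance (R : Type u) [Ring R] : (isDbMod R).IsClosedUnderIsomorphisms where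
  of_iso e h := isDbMod_of_iso e h

/-- A finitely generated module as an object of `D^b(mod R)`. -/
lemma isDbMod_single {R : Type u} [Ring R] (N : ModuleCat.{u} R) [Module.Finite R N] :
    isDbMod R ((DerivedCategory.singleFunctor _ 0).obj N) := by
  have hz : ∀ i : ℤ, i ≠ 0 → IsZero ((DerivedCategory.homologyFunctor (ModuleCat.{u} R) i).obj
      ((DerivedCategory.singleFunctor _ 0).obj N)) := by
    intro i hi
    rcases lt_or_gt_of_ne hi with h | h
    · exact DerivedCategory.isZero_of_isGE _ 0 i h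
    · exact DerivedCategory.isZero_of_isLE _ 0 i h
  refine ⟨fun i => ?_, 0, 0, fun i hi => hz i (by lia)⟩
  by_cases h : i = 0
  · subst h
    have : Module.Finite R ((𝟭 (ModuleCat R)).obj N) := inferInstanceAs (Module.Finite R N)
    exact Module.Finite.equiv
      ((DerivedCategory.singleFunctorCompHomologyFunctorIso _ 0).app N).symm.toLinearEquiv
  · have := (ModuleCat.isZero_iff_subsingleton).1 (hz i h)
    infer_instance

/-- Transport of Hom-vanishing between the full subcategory and the derived category. -/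
lemma subsingleton_full {A : Type u} [Category.{v} A] [Abelian A] [HasDerivedCategory.{w} A]
    (P : ObjectProperty (DerivedCategory A)) [P.IsStableUnderShift ℤ] (E G : P.FullSubcategory)
    (i : ℤ) : Subsingleton (E ⟶ G⟦i⟧) ↔ Subsingleton (E.obj ⟶ G.obj⟦i⟧) := by
  have e : P.ι.obj (G⟦i⟧) ≅ G.obj⟦i⟧ := (P.ι.commShiftIso i).app G
  have h1 : Subsingleton (E ⟶ G⟦i⟧) ↔ Subsingleton (P.ι.obj E ⟶ P.ι.obj (G⟦i⟧)) :=
    (Functor.FullyFaithful.ofFullyFaithful P.ι).homEquiv.subsingleton_congr
  rw [h1]
  exact (Iso.homCongr (Iso.refl _) e).subsingleton_congr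

/-- There is an equivalence of categories between `D^b(coh X)` and `D^b(mod Λ)` which commutes
with the shift `[1]` on objects. (Every triangulated equivalence is such an equivalence, so this is
weaker than being derived equivalent.) -/
def ShiftEquivalent (X : Scheme.{u}) (Λ : Type u) [Ring Λ] : Prop :=
  ∃ e : DbCoh X ≌ DbMod Λ, ∀ A : DbCoh X,
    Nonempty (e.functor.obj (A⟦(1 : ℤ)⟧) ≅ (e.functor.obj A)⟦(1 : ℤ)⟧)

/-- No equivalence commuting with shifts between `D^b(coh X)`, if Hom groups vanish in large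
degrees there, and `D^b(mod R)`, if some finitely generated module has nonzero self extensions in
arbitrarily large degrees. -/
theorem not_equivalent (X : Scheme.{u}) (R : Type u) [Ring R]
    (hX : ∀ E G : DerivedCategory X.Modules, isDbCoh X E → isDbCoh X G → HV E G)
    (hR : ∃ N : ModuleCat.{u} R, Module.Finite R N ∧
      ∀ n : ℕ, ∃ j, n ≤ j ∧ Nontrivial (Ext N N j)) :
    ¬ ShiftEquivalent X R := by
  rintro ⟨e, he⟩
  obtain ⟨N, hN, hj⟩ := hR
  let B : DbMod R := ⟨(DerivedCategory.singleFunctor _ 0).obj N, isDbMod_single N⟩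
  let A := e.inverse.obj B
  obtain ⟨n, hn⟩ := hX A.obj A.obj A.property A.property
  obtain ⟨j, hnj, hj⟩ := hj n.toNat
  have h1 := hn j (by have := Int.self_le_toNat n; lia)
  have h2 := (subsingleton_full (isDbCoh X) A A j).2 h1
  obtain ⟨s⟩ := Pool.Agent.W456.shift_all e.functor he j A
  have h3 : Subsingleton (e.functor.obj A ⟶ e.functor.obj (A⟦(j : ℤ)⟧)) :=
    (Functor.FullyFaithful.ofFullyFaithful e.functor).homEquiv.symm.subsingleton_congr.2 h2
  let g : e.functor.obj A ≅ B := e.counitIso.app B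
  have h4 : Subsingleton (B ⟶ B⟦(j : ℤ)⟧) :=
    (Iso.homCongr g (s ≪≫ (shiftFunctor _ (j : ℤ)).mapIso g)).subsingleton_congr.1 h3
  have h5 := (subsingleton_full (isDbMod R) B B j).1 h4
  have h6 : Subsingleton (Ext N N j) := (Ext.homEquiv (C := ModuleCat.{u} R)).subsingleton_congr.2 h5
  exact not_subsingleton_iff_nontrivial.2 hj h6

end Pool.Agent.TH215.TM
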