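import Pool.Agent.TH215.TM.Defs

set_option autoImplicit false

open CategoryTheory Limits Abelian

universe u

namespace Pool.Agent.TH215.TM

/-- A commutative ring is its own endomorphism ring. -/
noncomputable def endRingEquiv (R : Type u) [CommRing R] : R ≃+* Module.End R R :=
  RingEquiv.ofBijective (Algebra.lmul R R).toRingHom (by
    constructor
    · intro a b h
      have := LinearMap.congr_fun h 1
      simpa using this
    · intro f
      refine ⟨f 1, ?_⟩
      ext
      simp)

lemma finite_of_ringEquiv {R Λ : Type u} [Ring R] [Ring Λ] (e : R ≃+* Λ) (N : Type u)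
    [AddCommGroup N] [Module R N] [Module Λ N] (h : ∀ (r : R) (x : N), e r • x = r • x)
    (hN : Module.Finite R N) : Module.Finite Λ N := by
  obtain ⟨s, hs⟩ := hN
  refine ⟨⟨s, ?_⟩⟩
  rw [eq_top_iff]
  intro x _
  have key : ∀ y ∈ Submodule.span R (s : Set N), y ∈ Submodule.span Λ (s : Set N) := by
    intro y hy
    induction hy using Submodule.span_induction with
    | mem y hy => exact Submodule.subset_span hy
    | zero => exact Submodule.zero_mem _
    | add y z _ _ h1 h2 => exact Submodule.add_mem _ h1 h2
    | smul r y _ h1 =>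
      rw [← h]
      exact Submodule.smul_mem _ (e r) h1
  exact key x (by rw [hs]; trivial)

theorem unbounded_of_ringEquiv {R Λ : Type u} [Ring R] [Ring Λ] (e : R ≃+* Λ)
    (h : ∃ N : ModuleCat.{u} R, Module.Finite R N ∧ ∀ n : ℕ, ∃ j, n ≤ j ∧ Nontrivial (Ext N N j)) :
    ∃ N : ModuleCat.{u} Λ, Module.Finite Λ N ∧ ∀ n : ℕ, ∃ j, n ≤ j ∧ Nontrivial (Ext N N j) := by
  obtain ⟨N, hN, hj⟩ := h
  let E := ModuleCat.restrictScalarsEquivalenceOfRingEquiv e.symm
  have hadd : E.functor.Additive := inferInstance
  refine ⟨E.functor.obj N, ?_, fun n => ?_⟩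
  · let _ : Module Λ N := Module.compHom N e.symm.toRingHom
    have h1 : ∀ (r : R) (x : N), e r • x = r • x := by
      intro r x
      have h4 : (e r) • x = e.symm (e r) • x := rfl
      rw [h4, e.symm_apply_apply]
    exact finite_of_ringEquiv e N h1 hN
  · obtain ⟨j, hnj, hj⟩ := hj n
    refine ⟨j, hnj, ?_⟩
    have := E.functor.mapExt_bijective_of_preservesProjectiveObjects N N j
    exact this.injective.nontrivial

end Pool.Agent.TH215.TM
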