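import Pool.Agent.TH215.TM.Higman

set_option autoImplicit false

open CategoryTheory Limits Abelian

universe u

namespace Pool.Agent.TH215.TM

section coext

variable {S B : Type u} [CommRing S] [CommRing B] [Algebra S B]

/-- coextension of scalars -/
noncomputable def coe' (S B : Type u) [CommRing S] [CommRing B] [Algebra S B] :
    ModuleCat.{u} S ⥤ ModuleCat.{u} B :=
  ModuleCat.coextendScalars.{u, u, u} (algebraMap S B)

/-- the adjunction -/
noncomputable def adj' (S B : Type u) [CommRing S] [CommRing B] [Algebra S B] :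
    ModuleCat.restrictScalars.{u} (algebraMap S B) ⊣ coe' S B :=
  ModuleCat.restrictCoextendScalarsAdj.{u, u, u} (algebraMap S B)

/-- `B` as an `S`-module, in two ways -/
noncomputable def eR (S B : Type u) [CommRing S] [CommRing B] [Algebra S B] :
    B ≃ₗ[S] ((ModuleCat.restrictScalars (algebraMap S B)).obj (ModuleCat.of B B)) :=
  { toFun := fun x => x
    invFun := fun x => x
    map_add' := fun _ _ => rfl
    map_smul' := fun r x => Algebra.smul_def r x
    left_inv := fun _ => rfl
    right_inv := fun _ => rfl }

lemma proj_restrict [Module.Projective S B] :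
    Module.Projective S ((ModuleCat.restrictScalars (algebraMap S B)).obj (ModuleCat.of B B)) :=
  Module.Projective.of_equiv (eR S B)

instance : (coe' S B).Additive := (adj' S B).right_adjoint_additive

instance : PreservesFiniteLimits (coe' S B) := by
  have := (adj' S B).rightAdjoint_preservesLimits
  infer_instance

lemma coe'_epi [Module.Projective S B] {M N : ModuleCat.{u} S} (g : M ⟶ N) [Epi g] :
    Epi ((coe' S B).map g) := by
  have hg : Function.Surjective g.hom := (ModuleCat.epi_iff_surjective g).1 inferInstance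
  rw [ModuleCat.epi_iff_surjective]
  intro h
  have := proj_restrict (S := S) (B := B)
  obtain ⟨h', hh'⟩ := Module.projective_lifting_property g.hom
    (ModuleCat.CoextendScalars.equiv (algebraMap S B) N h) hg
  refine ⟨(ModuleCat.CoextendScalars.equiv (algebraMap S B) M).symm h', ?_⟩
  apply ModuleCat.CoextendScalars.ext
  exact hh'

lemma coe'_shortExact [Module.Projective S B] {T : ShortComplex (ModuleCat.{u} S)}
    (hT : T.ShortExact) : (T.map (coe' S B)).ShortExact := by
  have := hT.mono_f
  have := hT.epi_g
  have h1 : Mono (T.map (coe' S B)).f := inferInstanceAs (Mono ((coe' S B).map T.f))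
  have h2 : Epi (T.map (coe' S B)).g := coe'_epi T.g
  have h3 : (T.map (coe' S B)).Exact :=
    hT.exact.map_of_mono_of_preservesKernel (coe' S B) inferInstance inferInstance
  exact { exact := h3, mono_f := h1, epi_g := h2 }

lemma injdim_coext [Module.Projective S B] (k : ℕ) : ∀ (N : ModuleCat.{u} S),
    HasInjectiveDimensionLT N (k + 1) → HasInjectiveDimensionLT ((coe' S B).obj N) (k + 1) := by
  induction k with
  | zero =>
    intro N h
    have : Injective N := injective_iff_hasInjectiveDimensionLT_one.2 h
    have : Injective ((coe' S B).obj N) :=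
      Injective.injective_of_adjoint (adj' S B) N
    exact injective_iff_hasInjectiveDimensionLT_one.1 this
  | succ k ih =>
    intro N h
    let T : ShortComplex (ModuleCat.{u} S) :=
      ShortComplex.mk (Injective.ι N) (cokernel.π (Injective.ι N)) (cokernel.condition _)
    have hT : T.ShortExact :=
      { exact := ShortComplex.exact_cokernel _
        mono_f := inferInstanceAs (Mono (Injective.ι N))
        epi_g := inferInstanceAs (Epi (cokernel.π (Injective.ι N))) }
    have hI : Injective T.X₂ := inferInstanceAs (Injective (Injective.under N))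
    have h1 : HasInjectiveDimensionLT T.X₂ (k + 1) := inferInstance
    have h2 : HasInjectiveDimensionLT T.X₃ (k + 1) := hT.hasInjectiveDimensionLT_X₃ (k + 1) h1 h
    have hI' : Injective ((coe' S B).obj T.X₂) :=
      Injective.injective_of_adjoint (adj' S B) _
    have h3 : HasInjectiveDimensionLT ((coe' S B).obj T.X₂) (k + 1 + 1) := inferInstance
    exact (coe'_shortExact hT).hasInjectiveDimensionLT_X₁ (k + 1) (ih _ h2) h3

end coext

section frobenius

variable {S : Type u} [CommRing S] (g : S)

/-- the polynomial `X⁴ + g` -/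
noncomputable abbrev ff4 : Polynomial S := Polynomial.X ^ 4 + Polynomial.C g

lemma ff4_monic : (ff4 g).Monic := Polynomial.monic_X_pow_add_C g (by norm_num)

lemma w4 : (AdjoinRoot.root (ff4 g)) ^ 4 = algebraMap S _ (-g) := by
  have h1 : AdjoinRoot.mk (ff4 g) (Polynomial.X ^ 4 + Polynomial.C g) = 0 := AdjoinRoot.mk_self
  rw [map_add, map_pow, AdjoinRoot.mk_X, AdjoinRoot.mk_C] at h1
  rw [map_neg]
  exact eq_neg_of_add_eq_zero_left h1

/-- the basis `1, w, w², w³` -/
noncomputable def bas [Nontrivial S] : Module.Basis (Fin 4) S (AdjoinRoot (ff4 g)) :=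
  (AdjoinRoot.powerBasis' (ff4_monic g)).basis.reindex
    (finCongr (Polynomial.natDegree_X_pow_add_C))

lemma bas_apply [Nontrivial S] (i : Fin 4) : bas g i = AdjoinRoot.root (ff4 g) ^ (i : ℕ) := by
  rw [bas, Module.Basis.reindex_apply, PowerBasis.coe_basis]
  rfl

lemma coord_pow [Nontrivial S] (k : ℕ) (hk : k < 4) : (bas g).coord 3 (AdjoinRoot.root (ff4 g) ^ k) =
    if k = 3 then 1 else 0 := by
  have h1 := bas_apply g ⟨k, hk⟩
  rw [← h1, Module.Basis.coord_apply, Module.Basis.repr_self, Finsupp.single_apply]
  simp only [Fin.ext_iff]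
  rfl

lemma coord_pow' [Nontrivial S] (k : ℕ) (hk : k < 7) :
    (bas g).coord 3 (AdjoinRoot.root (ff4 g) ^ k) = if k = 3 then 1 else 0 := by
  by_cases h : k < 4
  · exact coord_pow g k h
  · obtain ⟨l, rfl⟩ : ∃ l, k = l + 4 := ⟨k - 4, by omega⟩
    rw [pow_add, w4 g, mul_comm, ← Algebra.smul_def, map_smul, coord_pow g l (by omega),
      if_neg (by omega), if_neg (by omega), smul_zero]

lemma coord_mul [Nontrivial S] (i j : Fin 4) :
    (bas g).coord 3 (bas g j * bas g i) = (bas g).coord i.rev (bas g j) := by
  rw [Module.Basis.coord_apply (bas g) i.rev, Module.Basis.repr_self, bas_apply, bas_apply,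
    ← pow_add, coord_pow' g _ (by omega), Finsupp.single_apply]
  have : (j : ℕ) + i = 3 ↔ j = i.rev := by
    rw [Fin.ext_iff, Fin.val_rev]
    omega
  simp only [this]

/-- the pairing -/
noncomputable def pair [Nontrivial S] :
    AdjoinRoot (ff4 g) →ₗ[S] (AdjoinRoot (ff4 g) →ₗ[S] S) :=
  ((LinearMap.mul S (AdjoinRoot (ff4 g))).compr₂ ((bas g).coord 3)).flip

lemma pair_apply [Nontrivial S] (r x : AdjoinRoot (ff4 g)) :
    pair g r x = (bas g).coord 3 (x * r) := rfl

lemma pair_bijective [Nontrivial S] : Function.Bijective (pair g) := by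
  have h1 : pair g = ((bas g).equiv (bas g).dualBasis Fin.revPerm).toLinearMap := by
    apply (bas g).ext
    intro i
    apply (bas g).ext
    intro j
    rw [pair_apply, coord_mul]
    simp
  rw [h1]
  exact ((bas g).equiv (bas g).dualBasis Fin.revPerm).bijective

/-- The Frobenius isomorphism. -/
noncomputable def frobMap [Nontrivial S] : AdjoinRoot (ff4 g) →ₗ[AdjoinRoot (ff4 g)]
    (coe' S (AdjoinRoot (ff4 g))).obj (ModuleCat.of S S) where
  toFun r := (ModuleCat.CoextendScalars.equiv (algebraMap S (AdjoinRoot (ff4 g)))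
    (ModuleCat.of S S)).symm (pair g r ∘ₗ (eR S (AdjoinRoot (ff4 g))).symm.toLinearMap)
  map_add' r s := by
    apply ModuleCat.CoextendScalars.ext
    apply LinearMap.ext
    intro x
    exact LinearMap.congr_fun (map_add (pair g) r s) ((eR S (AdjoinRoot (ff4 g))).symm x)
  map_smul' a r := by
    apply ModuleCat.CoextendScalars.ext
    apply LinearMap.ext
    intro x
    let y : AdjoinRoot (ff4 g) := (eR S (AdjoinRoot (ff4 g))).symm x
    change (bas g).coord 3 (y * (a * r)) = (bas g).coord 3 ((y * a) * r)
    rw [mul_assoc]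

lemma frobMap_bijective [Nontrivial S] : Function.Bijective (frobMap g) := by
  constructor
  · intro r s h
    apply (pair_bijective g).1
    apply LinearMap.ext
    intro x
    have h1 := congrArg (ModuleCat.CoextendScalars.equiv (algebraMap S (AdjoinRoot (ff4 g)))
      (ModuleCat.of S S)) h
    exact LinearMap.congr_fun h1 (eR S (AdjoinRoot (ff4 g)) x)
  · intro h
    let h' := ModuleCat.CoextendScalars.equiv (algebraMap S (AdjoinRoot (ff4 g)))
      (ModuleCat.of S S) h
    obtain ⟨r, hr⟩ := (pair_bijective g).2 (h' ∘ₗ (eR S (AdjoinRoot (ff4 g))).toLinearMap)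
    refine ⟨r, ?_⟩
    apply ModuleCat.CoextendScalars.ext
    apply LinearMap.ext
    intro x
    exact LinearMap.congr_fun hr ((eR S (AdjoinRoot (ff4 g))).symm x)

/-- `S[w]/(w⁴ + g)` has injective dimension `≤ 3` over itself if `S` has global dimension
`≤ 3`. -/
theorem injdim_self [Nontrivial S] (d : ℕ)
    (hS : ∀ M : ModuleCat.{u} S, HasProjectiveDimensionLT M (d + 1)) :
    HasInjectiveDimensionLT (ModuleCat.of (AdjoinRoot (ff4 g)) (AdjoinRoot (ff4 g))) (d + 1) := by
  have h1 : HasInjectiveDimensionLT (ModuleCat.of S S) (d + 1) := by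
    let := HasExt.standard (ModuleCat.{u} S)
    rw [hasInjectiveDimensionLT_iff]
    intro i hi Y x
    have := hS Y
    exact Ext.eq_zero_of_hasProjectiveDimensionLT x (d + 1) hi
  have hfree : Module.Free S (AdjoinRoot (ff4 g)) := Module.Free.of_basis (bas g)
  have h2 := injdim_coext (S := S) (B := AdjoinRoot (ff4 g)) d (ModuleCat.of S S) h1
  exact hasInjectiveDimensionLT_of_iso
    (LinearEquiv.ofBijective (frobMap g) (frobMap_bijective g)).toModuleIso.symm (d + 1)

end frobenius

/-- `R` is Gorenstein: it has injective dimension at most `3` over itself. -/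
theorem gorenstein_RR : HasInjectiveDimensionLT (ModuleCat.of RR RR) 4 :=
  injdim_self g3 3 gl_S3

end Pool.Agent.TH215.TM
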