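import Pool.Agent.TH215.TM.AsmMM
import Pool.Agent.TH215.TM.AsmExt
import Pool.Agent.TH215.TM.Cats
import Pool.Agent.TH215.TM.EndRing
import Pool.Agent.TH215.TM.Gor
import Pool.Agent.TH480.J296
import Pool.Agent.TH480.J303
import Pool.Agent.TH350.J294

/-!
Assembly.
-/

set_option autoImplicit false

open CategoryTheory Limits AlgebraicGeometry Abelian

namespace Pool.Agent.TH215.TM

attribute [local instance] HasDerivedCategory.standard

theorem ext_bounded_YY (E G : DerivedCategory YY.Modules) (hE : isDbCoh YY E)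
    (hG : isDbCoh YY G) : HV E G := by
  have := Pool.Agent.TH480.J295.isDomain_RR
  have := Pool.Agent.TH480.J295.isDomain_BB
  obtain ⟨U, h1, h2, h3, h4, h5⟩ := Pool.Agent.TH350.J304.YY_cover gl_S3 gl_BB
    Pool.Agent.TH480.J297.chartW Pool.Agent.TH480.J297.chartX
  exact ext_bounded YY U h1 h2 h3 (fun i => ⟨4, h4 i⟩) h5 E G hE hG

theorem not_equiv_YY : ¬ ShiftEquivalent YY (Module.End RR RR) :=
  not_equivalent YY (Module.End RR RR) ext_bounded_YY
    (unbounded_of_ringEquiv (endRingEquiv RR) Pool.Agent.TH350.J294.unbounded)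

end Pool.Agent.TH215.TM
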