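import Pool.Agent.TH215.TM.Defs
import Pool.Agent.Helper165.Blow
import Pool.Agent.Helper165.Geom2

/-!
Definitions for the geometry of the blow-up of `Spec R` in the origin.
-/

set_option autoImplicit false

open CategoryTheory Limits AlgebraicGeometry Abelian HomogeneousLocalization
open Pool.Agent.Helper165

namespace Pool.Agent.TH215.TM

/-- The image of the variable `x_i` in `R`. -/
noncomputable def xR (i : Fin 3) : RR := AdjoinRoot.of _ (MvPolynomial.X i)

/-- The element `w` of `R`. -/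
noncomputable def wR : RR := AdjoinRoot.root _

/-- The maximal ideal `(x, y, z, w)` of `R`. -/
noncomputable def J3 : Ideal RR := Ideal.span (Set.range xR ∪ {wR})

lemma xR_mem (i : Fin 3) : xR i ∈ J3 := Ideal.subset_span (Or.inl ⟨i, rfl⟩)

lemma wR_mem : wR ∈ J3 := Ideal.subset_span (Or.inr rfl)

/-- `Spec R`. -/
noncomputable def XX : Scheme.{0} := Spec (CommRingCat.of RR)

/-- The structure morphism of `Spec R`. -/
noncomputable def piX : XX ⟶ Spec (CommRingCat.of ℂ) :=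
  Spec.map (CommRingCat.ofHom (algebraMap ℂ RR))

/-- The blow-up `Y` of `Spec R` in the origin. -/
noncomputable def YY : Scheme.{0} := blow J3

/-- The blow-up morphism `f : Y ⟶ Spec R`. -/
noncomputable def ff : YY ⟶ XX := blowMap J3

/-- The polynomial `w = -(x³ + y³ + z³)` on the chart `w ≠ 0`. -/
noncomputable def wS : S3 := - g3

/-- The map from `R` to the ring of the chart `w`: `x_i ↦ x_i w`, `w ↦ -(x³ + y³ + z³)`. -/
noncomputable def cW : RR →+* S3 :=
  AdjoinRoot.lift (MvPolynomial.eval₂Hom (algebraMap ℂ S3) (fun i => MvPolynomial.X i * wS)) wS (by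
    simp only [Polynomial.eval₂_add, Polynomial.eval₂_pow, Polynomial.eval₂_X,
      Polynomial.eval₂_C, g3, wS, map_add, map_pow, MvPolynomial.coe_eval₂Hom,
      MvPolynomial.eval₂_X]
    ring)

/-- The elements `x, y, w` and `t` of `B`. -/
noncomputable def bV (i : Fin 3) : BB := AdjoinRoot.of _ (MvPolynomial.X i)

/-- The element `t` of `B`. -/
noncomputable def bT : BB := AdjoinRoot.root _

lemma of_h3 : AdjoinRoot.of (Polynomial.X ^ 3 + Polynomial.C h3 : Polynomial S3) h3 =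
    1 + bV 1 ^ 3 + bV 0 * bV 2 ^ 4 := by
  have h : AdjoinRoot.of (Polynomial.X ^ 3 + Polynomial.C h3 : Polynomial S3)
      (1 + MvPolynomial.X 1 ^ 3 + MvPolynomial.X 0 * MvPolynomial.X 2 ^ 4) =
      1 + bV 1 ^ 3 + bV 0 * bV 2 ^ 4 := by
    simp only [map_add, map_mul, map_pow, map_one, bV]
  exact h

lemma bT_rel : bT ^ 3 + (1 + bV 1 ^ 3 + bV 0 * bV 2 ^ 4) = 0 := by
  rw [← of_h3]
  have h := AdjoinRoot.eval₂_root (Polynomial.X ^ 3 + Polynomial.C h3 : Polynomial S3)
  rw [Polynomial.eval₂_add, Polynomial.eval₂_pow, Polynomial.eval₂_X, Polynomial.eval₂_C] at h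
  exact h

lemma of_g3 : AdjoinRoot.of (Polynomial.X ^ 4 + Polynomial.C g3 : Polynomial S3) g3 =
    xR 0 ^ 3 + xR 1 ^ 3 + xR 2 ^ 3 := by
  have h : AdjoinRoot.of (Polynomial.X ^ 4 + Polynomial.C g3 : Polynomial S3)
      (MvPolynomial.X 0 ^ 3 + MvPolynomial.X 1 ^ 3 + MvPolynomial.X 2 ^ 3) =
      xR 0 ^ 3 + xR 1 ^ 3 + xR 2 ^ 3 := by
    simp only [map_add, map_pow, xR]
  exact h

lemma wR_rel : wR ^ 4 + (xR 0 ^ 3 + xR 1 ^ 3 + xR 2 ^ 3) = 0 := by
  rw [← of_g3]
  have h := AdjoinRoot.eval₂_root (Polynomial.X ^ 4 + Polynomial.C g3 : Polynomial S3)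
  rw [Polynomial.eval₂_add, Polynomial.eval₂_pow, Polynomial.eval₂_X, Polynomial.eval₂_C] at h
  exact h

/-- The images of the variables in the chart `x_i`: `x_i ↦ x`, `x_{i+1} ↦ x y`,
`x_{i+2} ↦ x t`. -/
noncomputable def cV (i j : Fin 3) : BB :=
  if j = i then bV 0 else if j = i + 1 then bV 0 * bV 1 else bV 0 * bT

/-- The map from `R` to the ring of the chart `x_i`: `x_i ↦ x`, `x_{i+1} ↦ x y`,
`x_{i+2} ↦ x t`, `w ↦ x w`. -/
noncomputable def cX (i : Fin 3) : RR →+* BB :=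
  AdjoinRoot.lift (MvPolynomial.eval₂Hom (algebraMap ℂ BB) (cV i)) (bV 0 * bV 2) (by
    simp only [Polynomial.eval₂_add, Polynomial.eval₂_pow, Polynomial.eval₂_X,
      Polynomial.eval₂_C, g3, map_add, map_pow, MvPolynomial.coe_eval₂Hom,
      MvPolynomial.eval₂_X, MvPolynomial.eval₂_pow, MvPolynomial.eval₂_add]
    have h : cV i 0 ^ 3 + cV i 1 ^ 3 + cV i 2 ^ 3 = bV 0 ^ 3 + (bV 0 * bV 1) ^ 3 +
        (bV 0 * bT) ^ 3 := by
      fin_cases i <;> simp [cV] <;> ring
    rw [h]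
    linear_combination (bV 0 ^ 3) * bT_rel)

end Pool.Agent.TH215.TM
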