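import Pool.Agent.TH215.TM.Defs
import Pool.Agent.TH350.Conn
import Pool.Agent.W506.H2

set_option autoImplicit false

open CategoryTheory Polynomial TensorProduct

namespace Pool.Agent.TH215.TM

universe u v

theorem higman' {S : Type u} [CommRing S] (n : ℕ) (h : S) (f : Polynomial S)
    (hf : f = Polynomial.X ^ n + Polynomial.C h) (N : Type v) [AddCommGroup N]
    [Module S N] [Module (AdjoinRoot f) N] [IsScalarTower S (AdjoinRoot f) N]
    [Module.Projective S N] (φ : Module.End S N) (hφ : ∀ v, φ v = AdjoinRoot.root f • v)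
    (a : Module.End S N) (ha : ∑ i ∈ Finset.range n, φ ^ i * a * φ ^ (n - 1 - i) = 1) :
    Module.Projective (AdjoinRoot f) N := by
  let w : AdjoinRoot f := AdjoinRoot.root f
  have hw : w ^ n = algebraMap S (AdjoinRoot f) (-h) := by
    have h1 : AdjoinRoot.mk f f = 0 := AdjoinRoot.mk_self
    have h2 : AdjoinRoot.mk f (Polynomial.X ^ n + Polynomial.C h) =
        w ^ n + algebraMap S (AdjoinRoot f) h := by
      rw [map_add, map_pow, AdjoinRoot.mk_X, AdjoinRoot.mk_C]
      rfl
    rw [map_neg]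
    rw [← hf] at h2
    exact eq_neg_of_add_eq_zero_left (h2.symm.trans h1)
  have hpow : ∀ (i : ℕ) (v : N), (φ ^ i) v = w ^ i • v := by
    intro i
    induction i with
    | zero => intro v; simp
    | succ i ih =>
      intro v
      rw [pow_succ', Module.End.mul_apply, ih, hφ, pow_succ', mul_smul]
  let s : N →ₗ[S] AdjoinRoot f ⊗[S] N := ∑ i ∈ Finset.range n,
    (TensorProduct.mk S (AdjoinRoot f) N (w ^ i)) ∘ₗ a ∘ₗ (φ ^ (n - 1 - i))
  have hs : ∀ v, s v = ∑ i ∈ Finset.range n, (w ^ i) ⊗ₜ[S] a ((φ ^ (n - 1 - i)) v) := by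
    intro v
    simp only [s, LinearMap.sum_apply, LinearMap.comp_apply, TensorProduct.mk_apply]
  have hsw : ∀ v, s (w • v) = w • s v := by
    intro v
    rw [hs, hs, Finset.smul_sum]
    have e1 : ∀ i ∈ Finset.range n, (w ^ i) ⊗ₜ[S] a ((φ ^ (n - 1 - i)) (w • v)) =
        (w ^ i) ⊗ₜ[S] a ((φ ^ (n - i)) v) := by
      intro i hi
      have hi' := Finset.mem_range.1 hi
      rw [← hφ, ← Module.End.mul_apply (φ ^ (n - 1 - i)) φ v, ← pow_succ,
        show n - 1 - i + 1 = n - i by omega]
    have e2 : ∀ i ∈ Finset.range n, w • ((w ^ i) ⊗ₜ[S] a ((φ ^ (n - 1 - i)) v)) =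
        (w ^ (i + 1)) ⊗ₜ[S] a ((φ ^ (n - (i + 1))) v) := by
      intro i _
      rw [TensorProduct.smul_tmul', smul_eq_mul, ← pow_succ', show n - 1 - i = n - (i + 1) by omega]
    rw [Finset.sum_congr rfl e1, Finset.sum_congr rfl e2]
    have e3 := Finset.sum_range_sub (fun i => (w ^ i) ⊗ₜ[S] a ((φ ^ (n - i)) v)) n
    rw [Finset.sum_sub_distrib] at e3
    have e4 : (w ^ n) ⊗ₜ[S] a ((φ ^ (n - n)) v) = (w ^ 0) ⊗ₜ[S] a ((φ ^ (n - 0)) v) := by
      rw [Nat.sub_self, Nat.sub_zero, hpow n v, hw, pow_zero, pow_zero, Module.End.one_apply,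
        algebraMap_smul, map_smul, TensorProduct.tmul_smul, TensorProduct.smul_tmul',
        Algebra.smul_def, mul_one]
    rw [e4, sub_self] at e3
    exact (sub_eq_zero.1 e3).symm
  have hlin : ∀ (r : AdjoinRoot f) (v : N), s (r • v) = r • s v := by
    intro r
    induction r using AdjoinRoot.induction_on with
    | ih p =>
      induction p using Polynomial.induction_on with
      | C c =>
        intro v
        rw [AdjoinRoot.mk_C]
        change s (algebraMap S (AdjoinRoot f) c • v) = algebraMap S (AdjoinRoot f) c • s v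
        rw [algebraMap_smul, algebraMap_smul, map_smul]
      | add p q hp hq =>
        intro v
        rw [map_add, add_smul, add_smul, map_add, hp, hq]
      | monomial k c hk =>
        intro v
        rw [pow_succ, ← mul_assoc, map_mul, mul_smul, mul_smul, hk, AdjoinRoot.mk_X]
        change _ • s (w • v) = _ • w • s v
        rw [hsw]
  let s' : N →ₗ[AdjoinRoot f] AdjoinRoot f ⊗[S] N :=
    { toFun := s, map_add' := s.map_add, map_smul' := hlin }
  refine Module.Projective.of_split s'
    (LinearMap.liftBaseChange (AdjoinRoot f) (LinearMap.id : N →ₗ[S] N)) ?_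
  ext v
  change (LinearMap.liftBaseChange (AdjoinRoot f) (LinearMap.id : N →ₗ[S] N)) (s v) = v
  rw [hs, map_sum]
  simp only [LinearMap.liftBaseChange_tmul, LinearMap.id_apply]
  have h3 := LinearMap.congr_fun ha v
  simp only [LinearMap.sum_apply, Module.End.mul_apply, Module.End.one_apply, hpow] at h3
  simp only [hpow]
  exact h3

theorem higman {S : Type} [CommRing S] (n : ℕ) (_ : 0 < n) (h : S) (N : Type) [AddCommGroup N]
    [Module S N] [Module (AdjoinRoot (Polynomial.X ^ n + Polynomial.C h : Polynomial S)) N]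
    [IsScalarTower S (AdjoinRoot (Polynomial.X ^ n + Polynomial.C h : Polynomial S)) N]
    [Module.Projective S N] (φ : Module.End S N)
    (hφ : ∀ v, φ v = AdjoinRoot.root (Polynomial.X ^ n + Polynomial.C h : Polynomial S) • v)
    (a : Module.End S N) (ha : ∑ i ∈ Finset.range n, φ ^ i * a * φ ^ (n - 1 - i) = 1) :
    Module.Projective (AdjoinRoot (Polynomial.X ^ n + Polynomial.C h : Polynomial S)) N :=
  higman' n h _ rfl N φ hφ a ha

open Pool.Agent.W506.Hilb

theorem gl_S3 (M : ModuleCat.{0} S3) : HasProjectiveDimensionLT M 4 :=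
  hilbert_syzygy ℂ 3 M

lemma bT_pow : (AdjoinRoot.root (Polynomial.X ^ 3 + Polynomial.C h3 : Polynomial S3)) ^ 3 =
    algebraMap S3 BB (-h3) := by
  have h1 : AdjoinRoot.mk (Polynomial.X ^ 3 + Polynomial.C h3 : Polynomial S3)
    (Polynomial.X ^ 3 + Polynomial.C h3) = 0 := AdjoinRoot.mk_self
  rw [map_add, map_pow, AdjoinRoot.mk_X, AdjoinRoot.mk_C] at h1
  rw [map_neg]
  exact eq_neg_of_add_eq_zero_left h1

lemma pderiv_h3_1 : MvPolynomial.pderiv 1 h3 = 3 * (MvPolynomial.X 1 : S3) ^ 2 := by
  simp [h3]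

lemma pderiv_h3_0 : MvPolynomial.pderiv 0 h3 = (MvPolynomial.X 2 : S3) ^ 4 := by
  simp [h3]

/-- a `B`-module which is projective over `S` is projective over `B` -/
theorem proj_BB (N : Type) [AddCommGroup N] [Module S3 N] [Module BB N] [IsScalarTower S3 BB N]
    [Module.Projective S3 N] : Module.Projective BB N := by
  let w : BB := AdjoinRoot.root (Polynomial.X ^ 3 + Polynomial.C h3 : Polynomial S3)
  have hw : w ^ 3 = algebraMap S3 BB (-h3) := bT_pow
  let φ : Module.End S3 N := Algebra.lsmul S3 S3 N w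
  have hφ : ∀ v, φ v = w • v := fun v => rfl
  have hφ3 : φ ^ 3 = -(h3 • (1 : Module.End S3 N)) := by
    ext v
    have : (φ ^ 3) v = w ^ 3 • v := by
      simp only [pow_succ, pow_zero, one_mul, Module.End.mul_apply, hφ, mul_smul]
    rw [this, hw, algebraMap_smul]
    simp
  obtain ⟨c1, hc1⟩ := Pool.Agent.TH350.Conn.exists_trace (MvPolynomial.pderiv 1) N φ 3 h3 hφ3
  obtain ⟨c0, hc0⟩ := Pool.Agent.TH350.Conn.exists_trace (MvPolynomial.pderiv 0) N φ 3 h3 hφ3
  rw [pderiv_h3_1] at hc1
  rw [pderiv_h3_0] at hc0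
  have hT : ∀ (s : S3) (b : Module.End S3 N), ∑ i ∈ Finset.range 3, φ ^ i * (s • b) * φ ^ (3 - 1 - i) =
      s • ∑ i ∈ Finset.range 3, φ ^ i * b * φ ^ (3 - 1 - i) := by
    intro s b
    simp only [Finset.smul_sum, mul_smul_comm, smul_mul_assoc]
  have hφT : ∑ i ∈ Finset.range 3, φ ^ i * φ * φ ^ (3 - 1 - i) =
      (-3 * h3) • (1 : Module.End S3 N) := by
    have : ∑ i ∈ Finset.range 3, φ ^ i * φ * φ ^ (3 - 1 - i) = 3 * φ ^ 3 := by
      simp only [Finset.sum_range_succ, Finset.sum_range_zero]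
      norm_num
      noncomm_ring
    rw [this, hφ3, mul_neg, neg_mul, neg_smul, mul_smul]
    congr 1
    ext v
    simp only [Module.End.mul_apply, LinearMap.smul_apply, Module.End.one_apply,
      Module.End.ofNat_apply, map_smul]
    rw [ofNat_smul_eq_nsmul S3 3 (h3 • v), smul_comm]
  let a : Module.End S3 N := (MvPolynomial.C (-1/3) : S3) • φ +
    (MvPolynomial.C (-1/3) * MvPolynomial.X 1 : S3) • c1 + (- MvPolynomial.X 0 : S3) • c0
  refine higman' 3 h3 _ rfl N φ hφ a ?_
  have h1 : ∑ i ∈ Finset.range 3, φ ^ i * a * φ ^ (3 - 1 - i) =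
    (MvPolynomial.C (-1/3) : S3) • ((-3 * h3) • (1 : Module.End S3 N)) +
    (MvPolynomial.C (-1/3) * MvPolynomial.X 1 : S3) •
      ((3 * (MvPolynomial.X 1 : S3) ^ 2) • (1 : Module.End S3 N)) + (- MvPolynomial.X 0 : S3) •
      (((MvPolynomial.X 2 : S3) ^ 4) • (1 : Module.End S3 N)) := by
    rw [← hc1, ← hc0, ← hφT, ← hT, ← hT, ← hT, ← Finset.sum_add_distrib, ← Finset.sum_add_distrib]
    refine Finset.sum_congr rfl fun i _ => ?_
    change φ ^ i * ((MvPolynomial.C (-1/3) : S3) • φ +
      (MvPolynomial.C (-1/3) * MvPolynomial.X 1 : S3) • c1 + (- MvPolynomial.X 0 : S3) • c0) * _ = _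
    rw [mul_add, mul_add, add_mul, add_mul]
  rw [h1, smul_smul, smul_smul, smul_smul, ← add_smul, ← add_smul]
  have h2 : (MvPolynomial.C (-1/3) : S3) * (-3 * h3) + MvPolynomial.C (-1/3) * MvPolynomial.X 1 *
      (3 * (MvPolynomial.X 1 : S3) ^ 2) + (- MvPolynomial.X 0 : S3) * ((MvPolynomial.X 2 : S3) ^ 4) = 1 := by
    have h3' : (MvPolynomial.C (-1/3) : S3) * 3 = -1 := by
      have : (3 : S3) = MvPolynomial.C 3 := by rw [map_ofNat]
      rw [this, ← map_mul]
      norm_num
    rw [h3]
    linear_combination (-(1 + (MvPolynomial.X 1 : S3) ^ 3 + MvPolynomial.X 0 * MvPolynomial.X 2 ^ 4) +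
      (MvPolynomial.X 1 : S3) ^ 3) * h3'
  rw [h2, one_smul]

section freeBB

instance : Module.Free S3 BB :=
  Module.Free.of_basis (AdjoinRoot.powerBasis' (Polynomial.monic_X_pow_add_C h3 (by norm_num))).basis

instance : Module.Finite S3 BB :=
  Module.Finite.of_basis (AdjoinRoot.powerBasis' (Polynomial.monic_X_pow_add_C h3 (by norm_num))).basis

end freeBB

theorem gl_aux {S B : Type} [CommRing S] [CommRing B] [Algebra S B] [Module.Free S B]
    (hB : ∀ (N : Type) [AddCommGroup N] [Module S N] [Module B N] [IsScalarTower S B N]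
      [Module.Projective S N], Module.Projective B N) (k : ℕ) :
    ∀ (M : Type) [AddCommGroup M] [Module S M] [Module B M]
    [IsScalarTower S B M], PdLT S M (k + 1) → PdLT B M (k + 1) := by
  induction k with
  | zero =>
    intro M _ _ _ _ h
    have := projective_of_pdLT_one h
    exact pdLT_one_of_projective (hB M)
  | succ k ih =>
    intro M _ _ _ _ h
    let π : (M →₀ B) →ₗ[B] M := Finsupp.linearCombination B id
    have hπ : Function.Surjective π := Finsupp.linearCombination_id_surjective B M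
    have hK : PdLT S (LinearMap.ker π) (k + 1) :=
      pdLT_left ((LinearMap.ker π).subtype.restrictScalars S) (π.restrictScalars S)
        (Submodule.injective_subtype _) hπ
        (LinearMap.exact_subtype_ker_map π)
        (pdLT_mono (by omega) (pdLT_one_of_projective inferInstance)) h
    have h1 := ih _ hK
    exact pdLT_right (LinearMap.ker π).subtype π
        (Submodule.injective_subtype _) hπ
        (LinearMap.exact_subtype_ker_map π) h1
        (pdLT_mono (by omega) (pdLT_one_of_projective inferInstance))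

theorem gl_BB (M : ModuleCat.{0} BB) : HasProjectiveDimensionLT M 4 := by
  let _ : Module S3 M := Module.compHom M (algebraMap S3 BB)
  have : IsScalarTower S3 BB M := ⟨fun r f m => by
      rw [Algebra.smul_def, mul_smul]; rfl⟩
  exact gl_aux (fun N _ _ _ _ _ => proj_BB N) 3 M (hilbert_syzygy ℂ 3 M)

end Pool.Agent.TH215.TM
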