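import Pool.Agent.TH215.TM.Defs2
import Pool.Agent.TH215.TM.Higman
import Pool.Agent.TH159.TM_CM
import Pool.Agent.TH159.TM_Reg
import Pool.Agent.TH350.J289
import Pool.Agent.TH350.J290
import Pool.Agent.TH350.J291

set_option autoImplicit false

open CategoryTheory Limits AlgebraicGeometry Abelian

universe u

namespace Pool.Agent.TH215.TM

open Pool.Agent.TH159.TM Pool.Agent.TH350.J289 Pool.Agent.TH350.J290 Pool.Agent.TH350.J291

lemma IsCM.retract {R : Type u} [CommRing R] {M N : Type u} [AddCommGroup M] [Module R M]
    [AddCommGroup N] [Module R N] (h : IsCM R M) (i : N →ₗ[R] M) (p : M →ₗ[R] N)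
    (hip : p ∘ₗ i = LinearMap.id) : IsCM R N := by
  obtain ⟨h1, h2⟩ := h
  have hp : Function.Surjective p := fun x => ⟨i x, by
    have := congrArg (fun f => f x) hip
    simpa using this⟩
  refine ⟨Module.Finite.of_surjective p hp, fun m hm j hj => ?_⟩
  have h3 := h2 m hm j hj
  constructor
  intro a b
  have key : ∀ e : Ext (ModuleCat.of R (R ⧸ m)) (ModuleCat.of R N) j, e = 0 := by
    intro e
    have e1 : e.comp (Ext.mk₀ (ModuleCat.ofHom i)) (add_zero j) = 0 := Subsingleton.elim _ _
    have e2 : (e.comp (Ext.mk₀ (ModuleCat.ofHom i)) (add_zero j)).comp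
        (Ext.mk₀ (ModuleCat.ofHom p)) (add_zero j) = e := by
      rw [Ext.comp_assoc_of_second_deg_zero, Ext.mk₀_comp_mk₀]
      have : ModuleCat.ofHom i ≫ ModuleCat.ofHom p = 𝟙 (ModuleCat.of R N) := by
        rw [← ModuleCat.ofHom_comp, hip]
        rfl
      rw [this, Ext.comp_mk₀_id]
    rw [← e2, e1, Ext.zero_comp]
  rw [key a, key b]

section prod

variable {R : Type u} [CommRing R] {N : Type u} [AddCommGroup N] [Module R N]

/-- the inclusion of `N` in the endomorphisms of `R × N` -/
def iN : N →ₗ[R] Module.End R (R × N) where
  toFun n := (LinearMap.inr R R N) ∘ₗ (LinearMap.toSpanSingleton R N n) ∘ₗ (LinearMap.fst R R N)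
  map_add' a b := by
    ext x <;> simp
  map_smul' r a := by
    ext x <;> simp

/-- the projection of the endomorphisms of `R × N` to `N` -/
def pN : Module.End R (R × N) →ₗ[R] N where
  toFun f := (f (1, 0)).2
  map_add' a b := by simp
  map_smul' r a := by simp

/-- the inclusion of `End(N)` in the endomorphisms of `R × N` -/
def iE : Module.End R N →ₗ[R] Module.End R (R × N) where
  toFun f := (LinearMap.inr R R N) ∘ₗ f ∘ₗ (LinearMap.snd R R N)
  map_add' a b := by
    ext x <;> simp
  map_smul' r a := by
    ext x <;> simp

/-- the projection of the endomorphisms of `R × N` to `End(N)` -/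
def pE : Module.End R (R × N) →ₗ[R] Module.End R N where
  toFun f := (LinearMap.snd R R N) ∘ₗ f ∘ₗ (LinearMap.inr R R N)
  map_add' a b := by
    ext x; simp
  map_smul' r a := by
    ext x; simp

lemma IsCM.of_prod (h : IsCM R (Module.End R (R × N))) : IsCM R N ∧ IsCM R (Module.End R N) := by
  refine ⟨h.retract iN pN ?_, h.retract iE pE ?_⟩
  · ext n
    simp [iN, pN]
  · ext f n
    simp [iE, pE]

end prod

section mm

variable (N : Type) [AddCommGroup N] [Module RR N] [Module S3 N] [IsScalarTower S3 RR N]

instance finite_RR : Module.Finite S3 RR :=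
  (Polynomial.monic_X_pow_add_C g3 (by norm_num)).finite_adjoinRoot

/-- multiplication by `w` -/
noncomputable def phiN : Module.End S3 N where
  toFun v := wR • v
  map_add' a b := smul_add _ _ _
  map_smul' r a := smul_comm _ _ _

lemma phiN_apply (v : N) : phiN N v = wR • v := rfl

lemma phiN_pow (k : ℕ) (v : N) : (phiN N ^ k) v = wR ^ k • v := by
  induction k generalizing v with
  | zero => simp
  | succ k ih => rw [pow_succ (phiN N) k, Module.End.mul_apply, ih, phiN_apply, smul_smul,
      pow_succ wR k]

lemma phiN_pow_four : phiN N ^ 4 = - (g3 • (1 : Module.End S3 N)) := by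
  ext v
  rw [phiN_pow]
  have h : wR ^ 4 = - algebraMap S3 RR g3 := by
    have := wR_rel
    rw [← of_g3] at this
    exact eq_neg_of_add_eq_zero_left this
  rw [h, neg_smul, algebraMap_smul]
  rfl

/-- `R`-linear endomorphisms are the `S`-linear endomorphisms commuting with `w` -/
noncomputable def endEquiv : Module.End RR N ≃ₗ[S3]
    Subalgebra.centralizer S3 ({phiN N} : Set (Module.End S3 N)) where
  toFun f := ⟨f.restrictScalars S3, by
    rw [Subalgebra.mem_centralizer_iff]
    rintro g rfl
    ext v
    simp [phiN_apply]⟩
  map_add' a b := by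
    apply Subtype.ext
    ext v
    simp
  map_smul' r a := by
    apply Subtype.ext
    ext v
    simp
  invFun f :=
    { toFun := f.1
      map_add' := f.1.map_add
      map_smul' := by
        intro r v
        simp only [RingHom.id_apply]
        have hc := (Subalgebra.mem_centralizer_iff S3).1 f.2 (phiN N) rfl
        have hw : ∀ v, f.1 (wR • v) = wR • f.1 v := by
          intro v
          have := congrArg (fun g => g v) hc
          simpa [phiN_apply] using this.symm
        induction r using AdjoinRoot.induction_on with
        | ih p =>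
          induction p using Polynomial.induction_on generalizing v with
          | C a =>
            have e : (AdjoinRoot.mk (Polynomial.X ^ 4 + Polynomial.C g3) (Polynomial.C a) : RR) =
              algebraMap S3 RR a := rfl
            rw [e, algebraMap_smul, algebraMap_smul, map_smul]
          | add p q hp hq =>
            rw [map_add, add_smul, add_smul, map_add, hp, hq]
          | monomial n a ih =>
            have e : (AdjoinRoot.mk (Polynomial.X ^ 4 + Polynomial.C g3)
                (Polynomial.C a * Polynomial.X ^ (n + 1)) : RR) =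
                (AdjoinRoot.mk (Polynomial.X ^ 4 + Polynomial.C g3)
                (Polynomial.C a * Polynomial.X ^ n) : RR) * wR := by
              rw [pow_succ (Polynomial.X : Polynomial S3) n, ← mul_assoc, map_mul]
              rfl
            rw [e, mul_smul, mul_smul, ih, hw] }
  left_inv f := by
    ext v
    rfl
  right_inv f := by
    apply Subtype.ext
    ext v
    rfl

theorem projective_S3 (h : IsCM RR N) : Module.Projective S3 N := by
  have := h.1
  have : Module.Finite S3 N := Module.Finite.trans RR N
  exact projective_of_regular N (fun n hn => cm_regular N h n hn)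

theorem projective_of_rigid (h1 : IsCM RR N) (h2 : IsCM RR (Module.End RR N)) :
    Module.Projective RR N := by
  have := h1.1
  have hf : Module.Finite S3 N := Module.Finite.trans RR N
  have hp := projective_S3 N h1
  have hpE := projective_S3 (Module.End RR N) h2
  have hfl : Module.Flat S3 (Subalgebra.centralizer S3 ({phiN N} : Set (Module.End S3 N))) :=
    Module.Flat.of_linearEquiv (endEquiv N).symm
  have hφ := phiN_pow_four N
  have hr := rigid N (phiN N) hφ hfl
  obtain ⟨a, ha⟩ := chain N (phiN N) hφ hr (trace_X2 N (phiN N) hφ)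
    (exists_tau N (phiN N) hφ hr)
  exact higman 4 (by norm_num) g3 N (phiN N) (fun v => rfl) a ha

end mm

/-- `R` is a maximal modifying `R`-module. -/
theorem mm_RR : IsMaximalModifying RR RR := by
  refine ⟨⟨inferInstance, inferInstance, ?_⟩, ?_⟩
  · refine isCM_RR.retract (LinearMap.ringLmapEquivSelf RR RR RR).toLinearMap
      (LinearMap.ringLmapEquivSelf RR RR RR).symm.toLinearMap ?_
    ext f
    simp
  · intro N _ _ hfin hrefl hmod
    obtain ⟨h1, h2⟩ := IsCM.of_prod hmod.2.2
    letI : Module S3 N := Module.compHom N (algebraMap S3 RR)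
    haveI : IsScalarTower S3 RR N := IsScalarTower.of_compHom S3 RR N
    have hp := projective_of_rigid N h1 h2
    obtain ⟨n, p, hps⟩ := Module.Finite.exists_fin' RR N
    obtain ⟨i, hi⟩ := Module.projective_lifting_property p LinearMap.id hps
    exact ⟨n, i, p, hi⟩

end Pool.Agent.TH215.TM
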