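import Pool.Agent.TH215.TM.Defs
import Pool.Agent.TH215.TM.HV
import Pool.Agent.W506.Q2
import Pool.Agent.W506.Q1
import Pool.Agent.W506.H2
import Pool.Agent.W456.ExtZero

set_option autoImplicit false

open CategoryTheory Limits AlgebraicGeometry Abelian
open Pool.Agent.W506 Opposite

universe u

namespace Pool.Agent.TH215.TM

noncomputable section

attribute [local instance] HasDerivedCategory.standard

set_option backward.isDefEq.respectTransparency false in
lemma tilde_mono {R : CommRingCat.{u}} {M N : ModuleCat.{u} R} (f : M ⟶ N) [Mono f] :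
    Mono (tilde.map f) := by
  apply mono_of_ap_injective
  intro U a b h
  have hf : Function.Injective f.hom := (ModuleCat.mono_iff_injective f).1 inferInstance
  apply Subtype.ext
  funext y
  have h1 := congrFun (congrArg Subtype.val h) y
  have h2 := IsLocalizedModule.map_injective y.1.asIdeal.primeCompl
    (LocalizedModule.mkLinearMap y.1.asIdeal.primeCompl M)
    (LocalizedModule.mkLinearMap y.1.asIdeal.primeCompl N) f.hom hf
  exact h2 h1

instance tilde_colim (R : CommRingCat.{u}) : PreservesFiniteColimits (tilde.functor R) := by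
  have := (tilde.adjunction (R := R)).leftAdjoint_preservesColimits
  infer_instance

instance tilde_presMono (R : CommRingCat.{u}) : (tilde.functor R).PreservesMonomorphisms where
  preserves f _ := tilde_mono f

instance tilde_lim (R : CommRingCat.{u}) : PreservesFiniteLimits (tilde.functor R) :=
  Pool.Agent.W456.finLim_of_mono _

/-- lifting maps from `tilde P` along surjections with `SumOn` kernel -/
lemma tilde_lift (R : CommRingCat.{u}) (P : ModuleCat.{u} R) [Projective P]
    (S : ShortComplex (Spec R).Modules) (hS : S.ShortExact) (h : SumOn S.X₁ ⊤)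
    (g : (tilde.functor R).obj P ⟶ S.X₃) :
    ∃ g' : (tilde.functor R).obj P ⟶ S.X₂, g' ≫ S.g = g := by
  have hsurj : Function.Surjective (ap S.g ⊤) :=
    ap_surjective_of_sumOn S hS h (isAffineOpen_top _) le_rfl
  have hepi : Epi (moduleSpecΓFunctor.map S.g) := by
    rw [ModuleCat.epi_iff_surjective]
    exact hsurj
  let q : P ⟶ moduleSpecΓFunctor.obj S.X₃ := (tilde.adjunction (R := R)).homEquiv P S.X₃ g
  refine ⟨((tilde.adjunction (R := R)).homEquiv P S.X₂).symm
    (Projective.factorThru q (moduleSpecΓFunctor.map S.g)), ?_⟩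
  have h1 := (tilde.adjunction (R := R)).homEquiv_naturality_right_symm
    (Projective.factorThru q (moduleSpecΓFunctor.map S.g)) S.g
  refine h1.symm.trans ?_
  rw [Projective.factorThru_comp]
  exact Equiv.symm_apply_apply _ _

/-- embedding into an injective -/
def injS {X : Scheme.{u}} (B : X.Modules) : ShortComplex X.Modules :=
  ShortComplex.mk (Injective.ι B) (cokernel.π (Injective.ι B)) (cokernel.condition _)

lemma injS_shortExact {X : Scheme.{u}} (B : X.Modules) : (injS B).ShortExact where
  exact := ShortComplex.exact_cokernel _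
  mono_f := inferInstanceAs (Mono (Injective.ι B))
  epi_g := inferInstanceAs (Epi (cokernel.π (Injective.ι B)))

lemma sumOn_injS {X : Scheme.{u}} (B : X.Modules) (h : SumOn B ⊤) : SumOn (injS B).X₃ ⊤ :=
  sumOn_coker _ (injS_shortExact B) h
    (sumOn_of_flasque (@flasque_of_injective _ (Injective.under B) inferInstance) _)

variable {R : CommRingCat.{u}}

lemma ext_tilde_proj [HasExt.{u} (Spec R).Modules] (P : ModuleCat.{u} R) [Projective P] (n : ℕ) :
    ∀ (B : (Spec R).Modules), SumOn B ⊤ →
      Subsingleton (Ext ((tilde.functor R).obj P) B (n + 1)) := by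
  induction n with
  | zero =>
    intro B hB
    refine subsingleton_of_forall_eq 0 fun x => ?_
    have hinj : Injective (injS B).X₂ := inferInstanceAs (Injective (Injective.under B))
    have h1 : Subsingleton (Ext ((tilde.functor R).obj P) (injS B).X₂ 1) :=
      Ext.subsingleton_of_injective _ _ _
    obtain ⟨y, hy⟩ := Ext.covariant_sequence_exact₁ ((tilde.functor R).obj P) (injS_shortExact B)
      (n₁ := 1) x (Subsingleton.elim _ _) (zero_add 1)
    obtain ⟨g, hg⟩ := Ext.homEquiv₀.symm.surjective y
    obtain ⟨g', hg'⟩ := tilde_lift R P (injS B) (injS_shortExact B) hB g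
    have hg2 : y = Ext.mk₀ g := hg.symm
    rw [← hy, hg2, ← hg', ← Ext.mk₀_comp_mk₀, Ext.comp_assoc _ _ _ (a₂₃ := 1) _ rfl (by lia),
      (injS_shortExact B).comp_extClass, Ext.comp_zero]
    rfl
  | succ n ih =>
    intro B hB
    refine subsingleton_of_forall_eq 0 fun x => ?_
    have hinj : Injective (injS B).X₂ := inferInstanceAs (Injective (Injective.under B))
    have h1 : Subsingleton (Ext ((tilde.functor R).obj P) (injS B).X₂ (n + 1 + 1)) :=
      Ext.subsingleton_of_injective _ _ _
    obtain ⟨y, hy⟩ := Ext.covariant_sequence_exact₁ ((tilde.functor R).obj P) (injS_shortExact B)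
      (n₁ := n + 1 + 1) x (Subsingleton.elim _ _) rfl
    have := ih (injS B).X₃ (sumOn_injS B hB)
    rw [← hy, Subsingleton.elim y 0, Ext.zero_comp]
    rfl

/-- projective presentation -/
def projS (M : ModuleCat.{u} R) : ShortComplex (ModuleCat.{u} R) :=
  ShortComplex.mk (kernel.ι (Projective.π M)) (Projective.π M) (kernel.condition _)

lemma projS_shortExact (M : ModuleCat.{u} R) : (projS M).ShortExact where
  exact := ShortComplex.exact_kernel _
  mono_f := inferInstanceAs (Mono (kernel.ι (Projective.π M)))
  epi_g := inferInstanceAs (Epi (Projective.π M))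

lemma ext_tilde [HasExt.{u} (Spec R).Modules] (d : ℕ) : ∀ (M : ModuleCat.{u} R)
    (_ : HasProjectiveDimensionLT M (d + 1)) (B : (Spec R).Modules) (_ : SumOn B ⊤) (n : ℕ)
    (_ : d + 1 ≤ n), Subsingleton (Ext ((tilde.functor R).obj M) B n) := by
  induction d with
  | zero =>
    intro M hM B hB n hn
    have : Projective M := projective_iff_hasProjectiveDimensionLT_one.2 hM
    obtain ⟨k, rfl⟩ := Nat.exists_eq_add_of_le' hn
    exact ext_tilde_proj M k B hB
  | succ d ih =>
    intro M hM B hB n hn
    obtain ⟨k, rfl⟩ := Nat.exists_eq_add_of_le' hn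
    have hP : Projective (projS M).X₂ := inferInstanceAs (Projective (Projective.over M))
    have hK : HasProjectiveDimensionLT (projS M).X₁ (d + 1) := by
      have h2 : HasProjectiveDimensionLT (projS M).X₂ (d + 1) := inferInstance
      exact (projS_shortExact M).hasProjectiveDimensionLT_X₁ (d + 1) h2 hM
    have hS := (projS_shortExact M).map_of_exact (tilde.functor R)
    refine subsingleton_of_forall_eq 0 fun x => ?_
    have h1 : Subsingleton (Ext ((projS M).map (tilde.functor R)).X₂ B (k + (d + 1 + 1))) :=
      ext_tilde_proj (projS M).X₂ _ B hB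
    obtain ⟨y, hy⟩ := Ext.contravariant_sequence_exact₃ hS B (n₁ := k + (d + 1 + 1)) x
      (Subsingleton.elim _ _) (n₀ := k + (d + 1)) (by omega)
    have h3 : Subsingleton (Ext ((projS M).map (tilde.functor R)).X₁ B (k + (d + 1))) :=
      ih (projS M).X₁ hK B hB (k + (d + 1)) (by omega)
    rw [← hy, Subsingleton.elim y 0, Ext.comp_zero]
    rfl

instance (M : ModuleCat.{u} R) : (tilde M).IsQuasicoherent := inferInstance

theorem affine_ext (R : CommRingCat.{u}) (M N : ModuleCat.{u} R)
    (d : ℕ) (hM : HasProjectiveDimensionLT M d) (i : ℤ) (hi : (d : ℤ) ≤ i) :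
    Subsingleton ((DerivedCategory.singleFunctor (Spec R).Modules 0).obj (tilde M) ⟶
      ((DerivedCategory.singleFunctor (Spec R).Modules 0).obj (tilde N))⟦i⟧) := by
  obtain ⟨n, rfl⟩ := Int.eq_ofNat_of_zero_le (le_trans (Int.natCast_nonneg d) hi)
  have hext : HasExt.{u} (Spec R).Modules := hasExt_of_enoughInjectives _
  have hN : SumOn (tilde N) ⊤ := (qcOn_of_isQuasicoherent (tilde N) ⊤).sumOn
  have key : Subsingleton (Ext (tilde M) (tilde N) n) := by
    cases d with
    | zero =>
      have hz : IsZero M := (hasProjectiveDimensionLT_zero_iff_isZero M).1 hM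
      have hz' : IsZero (tilde M) := (tilde.functor R).map_isZero hz
      have : HasProjectiveDimensionLT (tilde M) 0 :=
        (hasProjectiveDimensionLT_zero_iff_isZero _).2 hz'
      refine subsingleton_of_forall_eq 0 fun x => ?_
      exact Ext.eq_zero_of_hasProjectiveDimensionLT x 0 (Nat.zero_le _)
    | succ d => exact ext_tilde d M hM (tilde N) hN n (by omega)
  exact (Ext.homEquiv (X := tilde M) (Y := tilde N) (n := n)).symm.subsingleton

end

end Pool.Agent.TH215.TM
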