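import Mathlib
import Pool.Agent.W506.Defs

/-!
Definitions for the counterexample to the conjecture that all `ℚ`-factorial terminalizations and
all maximal modification algebras of a canonical Gorenstein threefold are derived equivalent.
-/

set_option autoImplicit false

universe u

open CategoryTheory Limits AlgebraicGeometry Abelian

namespace Pool.Agent.TH215.TM

section algebra

variable (R : Type u) [CommRing R] (M : Type u) [AddCommGroup M] [Module R M]

/-- Maximal Cohen-Macaulay modules over a noetherian ring `R`: finitely generated modules `M`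
with `depth M_m ≥ dim R_m` for every maximal ideal `m`, that is `Ext^i_R(R/m, M) = 0` for all
`i < height m`. -/
def IsCM : Prop :=
  Module.Finite R M ∧ ∀ m : Ideal R, m.IsMaximal → ∀ i : ℕ, (i : ℕ∞) < m.height →
    Subsingleton (Ext (ModuleCat.of R (R ⧸ m)) (ModuleCat.of R M) i)

/-- `M` is modifying: finitely generated, reflexive, and `End_R(M)` is maximal
Cohen-Macaulay. -/
def IsModifying : Prop :=
  Module.Finite R M ∧ Module.IsReflexive R M ∧ IsCM R (Module.End R M)

/-- `N ∈ add M`: `N` is a direct summand of a finite direct sum of copies of `M`. -/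
def InAdd (N : Type u) [AddCommGroup N] [Module R N] : Prop :=
  ∃ (n : ℕ) (i : N →ₗ[R] (Fin n → M)) (p : (Fin n → M) →ₗ[R] N), p ∘ₗ i = LinearMap.id

/-- `M` is maximal modifying (MM): it is modifying and every reflexive `N` such that `M ⊕ N` is
modifying lies in `add M`. -/
def IsMaximalModifying : Prop :=
  IsModifying R M ∧ ∀ (N : Type u) [AddCommGroup N] [Module R N], Module.Finite R N →
    Module.IsReflexive R N → IsModifying R (M × N) → InAdd R M N

end algebra

section rings

open MvPolynomial

/-- The polynomial ring `S = ℂ[x, y, z]`. -/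
abbrev S3 : Type := MvPolynomial (Fin 3) ℂ

/-- The polynomial `g = x³ + y³ + z³`. -/
noncomputable def g3 : S3 := X 0 ^ 3 + X 1 ^ 3 + X 2 ^ 3

/-- The ring `R = ℂ[x, y, z][w] / (w⁴ + x³ + y³ + z³)`. -/
abbrev RR : Type := AdjoinRoot (Polynomial.X ^ 4 + Polynomial.C g3 : Polynomial S3)

/-- The polynomial `h = 1 + y³ + x w⁴` in `ℂ[x, y, w]` (the variables `0, 1, 2` are
`x, y, w`). -/
noncomputable def h3 : S3 := 1 + X 1 ^ 3 + X 0 * X 2 ^ 4

/-- The ring `B = ℂ[x, y, w][t] / (t³ + 1 + y³ + x w⁴)` of three of the four charts of the
blow-up. -/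
abbrev BB : Type := AdjoinRoot (Polynomial.X ^ 3 + Polynomial.C h3 : Polynomial S3)

end rings

section derived

attribute [local instance] HasDerivedCategory.standard

/-- Objects of the derived category of modules on `X` with bounded and coherent cohomology. For a
noetherian scheme `X` these form the bounded derived category `D^b(coh X)`. -/
def isDbCoh (X : Scheme.{u}) : ObjectProperty (DerivedCategory X.Modules) := fun E =>
  (∀ i : ℤ, Pool.Agent.W506.IsCoh ((DerivedCategory.homologyFunctor X.Modules i).obj E)) ∧
  ∃ a b : ℤ, ∀ i : ℤ, (i < a ∨ b < i) →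
    IsZero ((DerivedCategory.homologyFunctor X.Modules i).obj E)

/-- The bounded derived category `D^b(coh X)` of coherent modules on `X`. -/
abbrev DbCoh (X : Scheme.{u}) := (isDbCoh X).FullSubcategory

/-- Objects of the derived category of left `R`-modules with bounded and finitely generated
cohomology. For a noetherian ring `R` these form the bounded derived category `D^b(mod R)`. -/
def isDbMod (R : Type u) [Ring R] : ObjectProperty (DerivedCategory (ModuleCat.{u} R)) :=
  fun E =>
  (∀ i : ℤ, Module.Finite R ((DerivedCategory.homologyFunctor (ModuleCat.{u} R) i).obj E)) ∧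
  ∃ a b : ℤ, ∀ i : ℤ, (i < a ∨ b < i) →
    IsZero ((DerivedCategory.homologyFunctor (ModuleCat.{u} R) i).obj E)

/-- The bounded derived category `D^b(mod R)` of finitely generated left `R`-modules. -/
abbrev DbMod (R : Type u) [Ring R] := (isDbMod R).FullSubcategory

end derived

end Pool.Agent.TH215.TM
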