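import Pool.Agent.TH215.TM.Defs

set_option autoImplicit false

namespace Pool.Agent.TH215.TM

/-- `tr4 φ a` is the sum of `φ^i a φ^(3-i)` for `i = 0, 1, 2, 3`. -/
noncomputable def tr4 {F : Type} [AddCommGroup F] [Module S3 F] (φ a : Module.End S3 F) :
    Module.End S3 F := ∑ i ∈ Finset.range 4, φ ^ i * a * φ ^ (3 - i)

/-- The ideal `(x, y, z)` of `S3`. -/
noncomputable def mS : Ideal S3 := Ideal.span (Set.range MvPolynomial.X)

/-- the endomorphisms of `F` which are congruent to zero modulo the `k`-th power of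
`(x, y, z)` -/
noncomputable def mE (F : Type) [AddCommGroup F] [Module S3 F] (k : ℕ) :
    Submodule S3 (Module.End S3 F) := (mS ^ k) • (⊤ : Submodule S3 (Module.End S3 F))

end Pool.Agent.TH215.TM
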